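import Mathlib
import Pool.Agent.H776R2.Om.Basic

set_option autoImplicit false

/-! Definitions: the Thue-Morse subshift, its topological full group, the line model. -/

namespace Pool.Agent.H776R2.Mor

open Pool.Agent.Results.MP_03d093_al.SphereBall Pool.Agent.H776R2.Grig Pool.Agent.H776R2.Om

/-- the substitution `0 ↦ 01`, `1 ↦ 10` on words -/
def sub (w : List Bool) : List Bool := w.flatMap fun x => [x, !x]

/-- the points of the Thue-Morse subshift: every finite subword occurs in some `σ^n(a)`, `n ≥ 1` -/
def InX (x : ℤ → Bool) : Prop :=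
  ∀ (i : ℤ) (l : ℕ), ∃ (n : ℕ) (a : Bool), 1 ≤ n ∧
    (List.range l).map (fun j : ℕ => x (i + j)) <:+: sub^[n] [a]

/-- the Thue-Morse subshift (subspace of the product space) -/
abbrev MX := {x : ℤ → Bool // InX x}

theorem inX_shift (k : ℤ) {x : ℤ → Bool} (h : InX x) : InX fun i => x (i + k) := by
  intro i l
  obtain ⟨n, a, hn, h1⟩ := h (i + k) l
  refine ⟨n, a, hn, ?_⟩
  have e : (List.range l).map (fun j : ℕ => x (i + j + k)) =
      (List.range l).map (fun j : ℕ => x (i + k + j)) := by
    apply List.map_congr_left
    intro j _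
    congr 1
    ring
  rw [e]
  exact h1

/-- the `k`-th power of the shift: `(T^k x)_i = x_(i+k)` -/
def Tk (k : ℤ) (x : MX) : MX := ⟨fun i => x.1 (i + k), inX_shift k x.2⟩

/-- `g` belongs to the topological full group of the Thue-Morse subshift -/
def InFull (g : MX ≃ₜ MX) : Prop := ∃ n : MX → ℤ, Continuous n ∧ ∀ x, g x = Tk (n x) x

/-- number of elements which are products of at most `n` elements of `S ∪ S⁻¹` -/
noncomputable def bS (S : Set (MX ≃ₜ MX)) (n : ℕ) : ℕ :=
  Nat.card {g : MX ≃ₜ MX // ∃ l : List (MX ≃ₜ MX), l.length ≤ n ∧ (∀ s ∈ l, s ∈ S ∨ s⁻¹ ∈ S) ∧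
    l.prod = g}

/-- the Thue-Morse sequence -/
def tm (n : ℕ) : Bool := (Nat.digits 2 n).foldr (fun d b => xor (d == 1) b) false

/-- `ω = 0 1 0 1 ...` -/
def om : Om := fun n => if Even n then 0 else 1

/-- the letter killed at junction `J` of the line: `d` if `v_2(J)` is even, `c` otherwise -/
def kt (J : ℤ) : V := if Even (padicValInt 2 J) then V.d else V.c

/-- action of a letter on the line `ℤ`: `a` exchanges `2i` and `2i+1`; the letter `x` exchanges `2J-1` and
`2J` unless it is killed at the junction `J` -/
def lact (k : ℤ → V) : Lt → ℤ → ℤ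
  | .A, p => if Even p then p + 1 else p - 1
  | .B, p => if Even p then (if k (p / 2) = V.b then p else p - 1) else
      (if k ((p + 1) / 2) = V.b then p else p + 1)
  | .C, p => if Even p then (if k (p / 2) = V.c then p else p - 1) else
      (if k ((p + 1) / 2) = V.c then p else p + 1)
  | .D, p => if Even p then (if k (p / 2) = V.d then p else p - 1) else
      (if k ((p + 1) / 2) = V.d then p else p + 1)

/-- action of a word on the line (the last letter acts first) -/
def lev (k : ℤ → V) : List Lt → ℤ → ℤ
  | [], p => p
  | s :: w, p => lact k s (lev k w p)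

/-- position of a binary word (Gray code) -/
def pos : List Bool → ℕ
  | [] => 0
  | x :: w => 2 * pos w + (if Even (pos w) then (if x then 0 else 1) else (if x then 1 else 0))

/-- phase of a point of the subshift: `1` if the coordinate `0` is the second one of its block -/
def ph (x : MX) : ℤ := if x.1 0 = x.1 1 ∨ x.1 2 = x.1 3 then 1 else 0

/-- the letter killed at the junction `J` (between the positions `2J-1` and `2J`, coordinate `0` has
position `ph x`) -/
def kx (x : MX) (J : ℤ) : V := if x.1 (2 * J - 2 - ph x) = x.1 (2 * J - ph x) then V.c else V.d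

/-- displacement of a letter -/
def dis (s : Lt) (x : MX) : ℤ := lact (kx x) s (ph x) - ph x

/-- the symmetric bi-infinite Thue-Morse sequence -/
def xs (i : ℤ) : Bool := if 0 ≤ i then tm i.toNat else tm (-1 - i).toNat

end Pool.Agent.H776R2.Mor
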