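import Mathlib
import Pool.Agent.H776R2.Mor.Defs

set_option autoImplicit false

namespace Pool.Agent.H776R2.Mor

open Pool.Agent.Results.MP_03d093_al.SphereBall Pool.Agent.H776R2.Grig Pool.Agent.H776R2.Om

/-- the common form of the action of the letters `b`, `c`, `d` -/
def C_step (k : ℤ → V) (v : V) (p : ℤ) : ℤ :=
  if Even p then (if k (p / 2) = v then p else p - 1) else (if k ((p + 1) / 2) = v then p else p + 1)

theorem C_lact (k : ℤ → V) (s : Lt) (p : ℤ) :
    lact k s p = (match s with
      | .A => if Even p then p + 1 else p - 1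
      | .B => C_step k V.b p
      | .C => C_step k V.c p
      | .D => C_step k V.d p) := by
  cases s <;> rfl

theorem C_odd {p : ℤ} (h : Even p) : ¬ Even (p - 1) := by
  rintro ⟨a, ha⟩; obtain ⟨b, hb⟩ := h; omega

theorem C_odd' {p : ℤ} (h : Even p) : ¬ Even (p + 1) := by
  rintro ⟨a, ha⟩; obtain ⟨b, hb⟩ := h; omega

theorem C_ev {p : ℤ} (h : ¬ Even p) : Even (p + 1) := by
  rw [Int.not_even_iff_odd] at h
  obtain ⟨b, hb⟩ := h
  exact ⟨b + 1, by omega⟩

theorem C_ev' {p : ℤ} (h : ¬ Even p) : Even (p - 1) := by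
  rw [Int.not_even_iff_odd] at h
  obtain ⟨b, hb⟩ := h
  exact ⟨b, by omega⟩

theorem C_step_invol (k : ℤ → V) (v : V) (p : ℤ) : C_step k v (C_step k v p) = p := by
  by_cases h : Even p
  · by_cases h1 : k (p / 2) = v
    · have e : C_step k v p = p := by unfold C_step; rw [if_pos h, if_pos h1]
      rw [e, e]
    · have e : C_step k v p = p - 1 := by unfold C_step; rw [if_pos h, if_neg h1]
      rw [e]
      unfold C_step
      rw [if_neg (C_odd h), sub_add_cancel, if_neg h1]
  · by_cases h1 : k ((p + 1) / 2) = v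
    · have e : C_step k v p = p := by unfold C_step; rw [if_neg h, if_pos h1]
      rw [e, e]
    · have e : C_step k v p = p + 1 := by unfold C_step; rw [if_neg h, if_neg h1]
      rw [e]
      unfold C_step
      rw [if_pos (C_ev h), if_neg h1, add_sub_cancel_right]

theorem lact_invol (k : ℤ → V) (s : Lt) (p : ℤ) : lact k s (lact k s p) = p := by
  cases s
  · show (if Even (if Even p then p + 1 else p - 1) then (if Even p then p + 1 else p - 1) + 1
      else (if Even p then p + 1 else p - 1) - 1) = p
    by_cases h : Even p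
    · rw [if_pos h, if_neg (C_odd' h), add_sub_cancel_right]
    · rw [if_neg h, if_pos (C_ev' h), sub_add_cancel]
  · exact C_step_invol k V.b p
  · exact C_step_invol k V.c p
  · exact C_step_invol k V.d p

theorem C_step_dist (k : ℤ → V) (v : V) (p : ℤ) : |C_step k v p - p| ≤ 1 := by
  unfold C_step
  rw [abs_le]
  split_ifs <;> constructor <;> omega

theorem C_lact_dist (k : ℤ → V) (s : Lt) (p : ℤ) : |lact k s p - p| ≤ 1 := by
  cases s
  · show |(if Even p then p + 1 else p - 1) - p| ≤ 1
    rw [abs_le]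
    split_ifs <;> constructor <;> omega
  · exact C_step_dist k V.b p
  · exact C_step_dist k V.c p
  · exact C_step_dist k V.d p

theorem lev_dist (k : ℤ → V) (w : List Lt) (p : ℤ) : |lev k w p - p| ≤ w.length := by
  induction w with
  | nil => simp [lev]
  | cons s w ih =>
    have h1 := C_lact_dist k s (lev k w p)
    rw [abs_le] at ih h1 ⊢
    rw [List.length_cons]
    show -(((w.length + 1 : ℕ)) : ℤ) ≤ lact k s (lev k w p) - p ∧
      lact k s (lev k w p) - p ≤ ((w.length + 1 : ℕ) : ℤ)
    push_cast
    constructor <;> omega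

theorem C_step_congr (k k' : ℤ → V) (v : V) (p : ℤ) (h1 : Even p → k (p / 2) = k' (p / 2))
    (h2 : ¬ Even p → k ((p + 1) / 2) = k' ((p + 1) / 2)) : C_step k v p = C_step k' v p := by
  unfold C_step
  by_cases h : Even p
  · rw [if_pos h, if_pos h, h1 h]
  · rw [if_neg h, if_neg h, h2 h]

theorem C_lact_congr (k k' : ℤ → V) (s : Lt) (p : ℤ) (h1 : Even p → k (p / 2) = k' (p / 2))
    (h2 : ¬ Even p → k ((p + 1) / 2) = k' ((p + 1) / 2)) : lact k s p = lact k' s p := by
  cases s
  · rfl
  · exact C_step_congr k k' V.b p h1 h2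
  · exact C_step_congr k k' V.c p h1 h2
  · exact C_step_congr k k' V.d p h1 h2

/-- locality -/
theorem lev_congr (k k' : ℤ → V) (w : List Lt) (p : ℤ)
    (h : ∀ J : ℤ, |2 * J - p| ≤ w.length + 1 → k J = k' J) : lev k w p = lev k' w p := by
  induction w with
  | nil => rfl
  | cons s w ih =>
    have hlen : (((s :: w).length : ℕ) : ℤ) = (w.length : ℤ) + 1 := by
      rw [List.length_cons]; push_cast; rfl
    have ih' : lev k w p = lev k' w p := by
      refine ih fun J hJ => h J ?_
      rw [hlen]
      linarith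
    have hd := lev_dist k' w p
    show lact k s (lev k w p) = lact k' s (lev k' w p)
    rw [ih']
    generalize lev k' w p = q at hd
    rw [abs_le] at hd
    refine C_lact_congr k k' s q (fun hq => h _ ?_) (fun hq => h _ ?_)
    · rw [hlen, abs_le]
      obtain ⟨b, hb⟩ := hq
      constructor <;> omega
    · rw [hlen, abs_le]
      obtain ⟨b, hb⟩ := C_ev hq
      constructor <;> omega

theorem C_step_shift (k : ℤ → V) (m : ℤ) (v : V) (p : ℤ) :
    C_step (fun J => k (J + m)) v p = C_step k v (p + 2 * m) - 2 * m := by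
  unfold C_step
  have e1 : (p + 2 * m) / 2 = p / 2 + m := by omega
  have e2 : (p + 2 * m + 1) / 2 = (p + 1) / 2 + m := by omega
  rw [e1, e2]
  by_cases h : Even p
  · have h' : Even (p + 2 * m) := by obtain ⟨b, hb⟩ := h; exact ⟨b + m, by omega⟩
    rw [if_pos h, if_pos h']
    split_ifs <;> ring
  · have h' : ¬ Even (p + 2 * m) := by
      rintro ⟨b, hb⟩; exact h ⟨b - m, by omega⟩
    rw [if_neg h, if_neg h']
    split_ifs <;> ring

theorem lact_shift (k : ℤ → V) (m : ℤ) (s : Lt) (p : ℤ) :
    lact (fun J => k (J + m)) s p = lact k s (p + 2 * m) - 2 * m := by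
  cases s
  · show (if Even p then p + 1 else p - 1) =
      (if Even (p + 2 * m) then p + 2 * m + 1 else p + 2 * m - 1) - 2 * m
    by_cases h : Even p
    · have h' : Even (p + 2 * m) := by obtain ⟨b, hb⟩ := h; exact ⟨b + m, by omega⟩
      rw [if_pos h, if_pos h']; ring
    · have h' : ¬ Even (p + 2 * m) := by
        rintro ⟨b, hb⟩; exact h ⟨b - m, by omega⟩
      rw [if_neg h, if_neg h']; ring
  · exact C_step_shift k m V.b p
  · exact C_step_shift k m V.c p
  · exact C_step_shift k m V.d p

theorem lev_shift (k : ℤ → V) (m : ℤ) (w : List Lt) (p : ℤ) :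
    lev (fun J => k (J + m)) w p = lev k w (p + 2 * m) - 2 * m := by
  induction w with
  | nil => show p = p + 2 * m - 2 * m; ring
  | cons s w ih =>
    show lact (fun J => k (J + m)) s (lev (fun J => k (J + m)) w p) =
      lact k s (lev k w (p + 2 * m)) - 2 * m
    rw [lact_shift, ih, sub_add_cancel]

end Pool.Agent.H776R2.Mor
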