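import Mathlib
import Pool.Agent.H776R2.Mor.Defs

set_option autoImplicit false

/-! Task A: facts on the Thue-Morse sequence (helper388) -/

namespace Pool.Agent.H776R2.Mor

open Pool.Agent.Results.MP_03d093_al.SphereBall Pool.Agent.H776R2.Grig Pool.Agent.H776R2.Om

theorem tm_zero : tm 0 = false := by
  simp [tm]

theorem tm_even (n : ℕ) : tm (2 * n) = tm n := by
  rcases Nat.eq_zero_or_pos n with rfl | hn
  · rfl
  · unfold tm
    have h : Nat.digits 2 (2 * n) = 0 :: Nat.digits 2 n := by
      rw [Nat.digits_def' (by norm_num) (by omega)]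
      congr 1
      · omega
      · congr 1
        omega
    rw [h, List.foldr_cons]
    simp

theorem tm_odd (n : ℕ) : tm (2 * n + 1) = !tm n := by
  unfold tm
  have h : Nat.digits 2 (2 * n + 1) = 1 :: Nat.digits 2 n := by
    rw [Nat.digits_def' (by norm_num) (by omega)]
    congr 1
    · omega
    · congr 1
      omega
  rw [h, List.foldr_cons]
  simp

theorem tm_no_cube (k : ℕ) : ¬ (tm k = tm (k + 1) ∧ tm (k + 1) = tm (k + 2)) := by
  rintro ⟨h1, h2⟩
  rcases Nat.even_or_odd' k with ⟨i, rfl | rfl⟩
  · rw [tm_even, tm_odd] at h1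
    cases h : tm i <;> simp [h] at h1
  · have e1 : 2 * i + 1 + 1 = 2 * (i + 1) := by ring
    have e2 : 2 * i + 1 + 2 = 2 * (i + 1) + 1 := by ring
    rw [e1, e2, tm_even, tm_odd] at h2
    cases h : tm (i + 1) <;> simp [h] at h2

theorem tm_junction (J : ℕ) : tm J ≠ tm (J + 1) ↔ Even (padicValNat 2 (J + 1)) := by
  induction J using Nat.strong_induction_on with
  | _ J ih =>
    rcases Nat.even_or_odd' J with ⟨i, rfl | rfl⟩
    · have h1 : padicValNat 2 (2 * i + 1) = 0 := by
        apply padicValNat.eq_zero_of_not_dvd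
        omega
      rw [h1, tm_even, tm_odd]
      constructor
      · intro _
        exact ⟨0, rfl⟩
      · intro _ h
        cases h' : tm i <;> simp [h'] at h
    · have e1 : 2 * i + 1 + 1 = 2 * (i + 1) := by ring
      have h1 : padicValNat 2 (2 * (i + 1)) = 1 + padicValNat 2 (i + 1) := by
        rw [padicValNat.mul (by norm_num) (by omega), padicValNat.self (by norm_num)]
      have h2 := ih i (by omega)
      rw [e1, h1, tm_odd, tm_even]
      have h3 : ((!tm i) ≠ tm (i + 1)) ↔ ¬ (tm i ≠ tm (i + 1)) := by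
        cases tm i <;> cases tm (i + 1) <;> simp
      rw [h3, h2]
      constructor
      · intro h
        rw [Nat.even_add]
        constructor
        · intro h1
          exact absurd h1 (by decide)
        · intro h1
          exact absurd h1 h
      · intro h h4
        rw [Nat.even_add] at h
        exact absurd (h.2 h4) (by decide)

theorem A_add2 (m k : ℕ) : ∀ i : ℕ, i < 2 ^ k → tm (m * 2 ^ k + i) = xor (tm m) (tm i) := by
  induction k with
  | zero =>
    intro i hi
    have : i = 0 := by simpa using hi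
    subst this
    simp [tm_zero]
  | succ k ih =>
    intro i hi
    rw [pow_succ] at hi
    rcases Nat.even_or_odd' i with ⟨j, rfl | rfl⟩
    · have e1 : m * 2 ^ (k + 1) + 2 * j = 2 * (m * 2 ^ k + j) := by ring
      rw [e1, tm_even, tm_even]
      exact ih j (by omega)
    · have e1 : m * 2 ^ (k + 1) + (2 * j + 1) = 2 * (m * 2 ^ k + j) + 1 := by ring
      rw [e1, tm_odd, tm_odd, ih j (by omega)]
      cases tm m <;> cases tm j <;> rfl

/-- `tm (m 4^k + i) = tm m + tm i` for `i < 4^k` -/
theorem tm_add (m k i : ℕ) (h : i < 4 ^ k) : tm (m * 4 ^ k + i) = xor (tm m) (tm i) := by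
  have e : (4 : ℕ) ^ k = 2 ^ (2 * k) := by
    rw [pow_mul]; norm_num
  rw [e] at h ⊢
  exact A_add2 m (2 * k) i h

theorem A_mirror2 (k : ℕ) : ∀ i : ℕ, i < 2 ^ k → tm (2 ^ k - 1 - i) =
    xor (decide (k % 2 = 1)) (tm i) := by
  induction k with
  | zero =>
    intro i hi
    have : i = 0 := by simpa using hi
    subst this
    simp [tm_zero]
  | succ k ih =>
    intro i hi
    rw [pow_succ] at hi
    have hk : decide ((k + 1) % 2 = 1) = !decide (k % 2 = 1) := by
      rcases Nat.mod_two_eq_zero_or_one k with h | h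
      · have h' : (k + 1) % 2 = 1 := by omega
        simp [h, h']
      · have h' : (k + 1) % 2 = 0 := by omega
        simp [h, h']
    rw [hk]
    rcases Nat.even_or_odd' i with ⟨j, rfl | rfl⟩
    · have e1 : 2 ^ (k + 1) - 1 - 2 * j = 2 * (2 ^ k - 1 - j) + 1 := by
        rw [pow_succ]
        omega
      rw [e1, tm_odd, tm_even, ih j (by omega)]
      cases decide (k % 2 = 1) <;> cases tm j <;> rfl
    · have e1 : 2 ^ (k + 1) - 1 - (2 * j + 1) = 2 * (2 ^ k - 1 - j) := by
        rw [pow_succ]
        omega
      rw [e1, tm_even, tm_odd, ih j (by omega)]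
      cases decide (k % 2 = 1) <;> cases tm j <;> rfl

theorem tm_mirror (k i : ℕ) (h : i < 4 ^ k) : tm (4 ^ k - 1 - i) = tm i := by
  have e : (4 : ℕ) ^ k = 2 ^ (2 * k) := by
    rw [pow_mul]; norm_num
  rw [e] at h ⊢
  rw [A_mirror2 (2 * k) i h]
  simp

theorem tm_aper (n : ℕ) (hn : 1 ≤ n) : ¬ ∀ i : ℕ, tm (i + n) = tm i := by
  induction n using Nat.strong_induction_on with
  | _ n ih =>
    intro h
    rcases Nat.even_or_odd' n with ⟨m, rfl | rfl⟩
    · refine ih m (by omega) (by omega) (fun i => ?_)
      have h1 := h (2 * i)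
      have e1 : 2 * i + 2 * m = 2 * (i + m) := by ring
      rw [e1, tm_even, tm_even] at h1
      exact h1
    · have h3 : ∀ i, tm (i + m) = tm (i + m + 1) := by
        intro i
        have h1 := h (2 * i)
        have h2 := h (2 * i + 1)
        have e1 : 2 * i + (2 * m + 1) = 2 * (i + m) + 1 := by ring
        have e2 : 2 * i + 1 + (2 * m + 1) = 2 * (i + m + 1) := by ring
        rw [e1, tm_odd, tm_even] at h1
        rw [e2, tm_even, tm_odd] at h2
        rw [h2, ← h1]
        simp
      have h4 := h3 m
      have e3 : m + m = 2 * m := by ring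
      rw [e3, tm_even, tm_odd] at h4
      cases h' : tm m <;> simp [h'] at h4

theorem A_flat (g : ℕ → Bool) (N : ℕ) :
    (List.range N).flatMap (fun i => [g (2 * i), g (2 * i + 1)]) = (List.range (2 * N)).map g := by
  induction N with
  | zero => simp
  | succ N ih =>
    have e : 2 * (N + 1) = 2 * N + 1 + 1 := by ring
    rw [List.range_succ, List.flatMap_append, ih, e, List.range_succ, List.range_succ]
    simp

theorem sub_iter (n : ℕ) (a : Bool) :
    sub^[n] [a] = (List.range (2 ^ n)).map fun i => xor a (tm i) := by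
  induction n with
  | zero => simp [tm_zero]
  | succ n ih =>
    rw [Function.iterate_succ_apply', ih, pow_succ, mul_comm, ← A_flat]
    unfold sub
    rw [List.flatMap_map]
    congr 1
    funext i
    rw [tm_even, tm_odd]
    cases a <;> cases tm i <;> rfl

end Pool.Agent.H776R2.Mor
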