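import Mathlib
import Pool.Agent.H776R2.Mor.TM

set_option autoImplicit false

/-! Points of the Thue-Morse subshift look like the Thue-Morse sequence. -/

namespace Pool.Agent.H776R2.Mor

open Pool.Agent.Results.MP_03d093_al.SphereBall Pool.Agent.H776R2.Grig Pool.Agent.H776R2.Om

/-- every window of a point of the subshift is a window of `tm` (up to the exchange of `0` and `1`), far to
the right -/
theorem mx_window (x : MX) (m : ℕ) : ∃ (Q : ℕ) (c : Bool), m ≤ Q ∧
    ∀ j : ℤ, |j| ≤ m → x.1 j = xor c (tm (Q + j).toNat) := by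
  obtain ⟨n, a, hn, s, t, hst⟩ := x.2 (-(m : ℤ)) (2 * m + 1)
  rw [sub_iter] at hst
  refine ⟨s.length + m, a, by omega, ?_⟩
  intro j hj
  rw [abs_le] at hj
  obtain ⟨j', hj'⟩ : ∃ j' : ℕ, (j' : ℤ) = j + m := ⟨(j + m).toNat, by omega⟩
  have hj2 : j' < 2 * m + 1 := by omega
  have hlen := congrArg List.length hst
  simp only [List.length_append, List.length_map, List.length_range] at hlen
  have hb : s.length + j' < 2 ^ n := by omega
  have h1 : (s ++ (List.range (2 * m + 1)).map (fun j : ℕ => x.1 (-(m : ℤ) + j)) ++ t)[s.length + j']? =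
      ((List.range (2 ^ n)).map (fun i => xor a (tm i)))[s.length + j']? := by rw [hst]
  rw [List.append_assoc, List.getElem?_append_right (by omega), Nat.add_sub_cancel_left,
    List.getElem?_append_left (by simpa using hj2), List.getElem?_map, List.getElem?_map,
    List.getElem?_range hj2, List.getElem?_range hb] at h1
  simp only [Option.map_some, Option.some.injEq] at h1
  have e1 : -(m : ℤ) + (j' : ℤ) = j := by omega
  have e2 : (((s.length + m : ℕ) : ℤ) + j).toNat = s.length + j' := by omega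
  rw [e1] at h1
  rw [e2]
  exact h1

theorem ph_eq (x : MX) (Q : ℕ) (c : Bool)
    (h : ∀ j : ℤ, |j| ≤ 3 → x.1 j = xor c (tm (Q + j).toNat)) (hQ : 3 ≤ Q) :
    ph x = (Q : ℤ) % 2 := by
  have h0 : x.1 0 = xor c (tm Q) := by
    have := h 0 (by norm_num)
    simpa using this
  have h1 : x.1 1 = xor c (tm (Q + 1)) := by
    have := h 1 (by norm_num)
    have e : ((Q : ℤ) + 1).toNat = Q + 1 := by omega
    rwa [e] at this
  have h2 : x.1 2 = xor c (tm (Q + 2)) := by
    have := h 2 (by norm_num)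
    have e : ((Q : ℤ) + 2).toNat = Q + 2 := by omega
    rwa [e] at this
  have h3 : x.1 3 = xor c (tm (Q + 3)) := by
    have := h 3 (by norm_num)
    have e : ((Q : ℤ) + 3).toNat = Q + 3 := by omega
    rwa [e] at this
  unfold ph
  rcases Nat.even_or_odd' Q with ⟨k, hk | hk⟩
  · have e0 : tm Q = tm k := by rw [hk, tm_even]
    have e1 : tm (Q + 1) = !tm k := by rw [hk, tm_odd]
    have e2 : tm (Q + 2) = tm (k + 1) := by
      rw [hk, show 2 * k + 2 = 2 * (k + 1) by ring, tm_even]
    have e3 : tm (Q + 3) = !tm (k + 1) := by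
      rw [hk, show 2 * k + 3 = 2 * (k + 1) + 1 by ring, tm_odd]
    have hno : ¬ (x.1 0 = x.1 1 ∨ x.1 2 = x.1 3) := by
      rw [h0, h1, h2, h3, e0, e1, e2, e3]
      cases c <;> cases tm k <;> cases tm (k + 1) <;> simp
    rw [if_neg hno]
    omega
  · have e0 : tm Q = !tm k := by rw [hk, tm_odd]
    have e1 : tm (Q + 1) = tm (k + 1) := by
      rw [hk, show 2 * k + 1 + 1 = 2 * (k + 1) by ring, tm_even]
    have e2 : tm (Q + 2) = !tm (k + 1) := by
      rw [hk, show 2 * k + 1 + 2 = 2 * (k + 1) + 1 by ring, tm_odd]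
    have e3 : tm (Q + 3) = tm (k + 2) := by
      rw [hk, show 2 * k + 1 + 3 = 2 * (k + 2) by ring, tm_even]
    have hc := tm_no_cube k
    have hyes : x.1 0 = x.1 1 ∨ x.1 2 = x.1 3 := by
      rw [h0, h1, h2, h3, e0, e1, e2, e3]
      revert hc
      cases c <;> cases tm k <;> cases tm (k + 1) <;> cases tm (k + 2) <;> simp
    rw [if_pos hyes]
    omega

/-- the killed letters of a point of the subshift are, on every window, those of the line far to the
right -/
theorem kx_eq (x : MX) (m : ℕ) : ∃ h : ℕ, m ≤ h ∧ ∀ J : ℤ, |J| ≤ m → kx x J = kt (J + h) := by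
  obtain ⟨Q, c, hQ, hw⟩ := mx_window x (2 * m + 10)
  have hph : ph x = (Q : ℤ) % 2 := ph_eq x Q c (fun j hj => hw j (by push_cast; omega)) (by omega)
  refine ⟨Q / 2, by omega, ?_⟩
  intro J hJ
  rw [abs_le] at hJ
  obtain ⟨n, hn⟩ : ∃ n : ℕ, (n : ℤ) + 1 = J + (Q / 2 : ℕ) :=
    ⟨(J + (Q / 2 : ℕ) - 1).toNat, by omega⟩
  have h1 : x.1 (2 * J - 2 - ph x) = xor c (tm n) := by
    rw [hw _ (by rw [abs_le, hph]; push_cast; omega)]
    have e : ((Q : ℤ) + (2 * J - 2 - ph x)).toNat = 2 * n := by rw [hph]; omega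
    rw [e, tm_even]
  have h2 : x.1 (2 * J - ph x) = xor c (tm (n + 1)) := by
    rw [hw _ (by rw [abs_le, hph]; push_cast; omega)]
    have e : ((Q : ℤ) + (2 * J - ph x)).toNat = 2 * (n + 1) := by rw [hph]; omega
    rw [e, tm_even]
  unfold kx kt
  rw [h1, h2, ← hn]
  have h3 : padicValInt 2 ((n : ℤ) + 1) = padicValNat 2 (n + 1) := by
    have : ((n : ℤ) + 1) = ((n + 1 : ℕ) : ℤ) := by push_cast; ring
    rw [this, padicValInt.of_nat]
  rw [h3]
  have h4 := tm_junction n
  by_cases he : Even (padicValNat 2 (n + 1))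
  · have h5 := h4.2 he
    rw [if_pos he, if_neg]
    intro h6
    exact h5 (by simpa using h6)
  · have h5 : tm n = tm (n + 1) := by
      by_contra hcon
      exact he (h4.1 hcon)
    rw [if_neg he, if_pos (by rw [h5])]

end Pool.Agent.H776R2.Mor
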