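import Mathlib
import Pool.Agent.H776R2.Mor.Defs
import Pool.Agent.H776R2.Mor.TM
import Pool.Agent.H776R2.Mor.MX

set_option autoImplicit false

/-! The symmetric Thue-Morse point, shifts (helper675). -/

namespace Pool.Agent.H776R2.Mor

open Pool.Agent.Results.MP_03d093_al.SphereBall Pool.Agent.H776R2.Grig Pool.Agent.H776R2.Om

theorem Tk_add (m n : ℤ) (x : MX) : Tk m (Tk n x) = Tk (m + n) x := by
  apply Subtype.ext
  funext i
  show x.1 (i + m + n) = x.1 (i + (m + n))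
  rw [add_assoc]

theorem Tk_zero (x : MX) : Tk 0 x = x := by
  apply Subtype.ext
  funext i
  show x.1 (i + 0) = x.1 i
  rw [add_zero]

theorem X_xs_nat (n : ℕ) : xs (n : ℤ) = tm n := by
  unfold xs
  rw [if_pos (by omega)]
  rfl

theorem X_tm5 : tm 5 = false := by
  have h1 : tm 5 = !tm 2 := tm_odd 2
  have h2 : tm 2 = tm 1 := tm_even 1
  have h3 : tm 1 = !tm 0 := tm_odd 0
  rw [h1, h2, h3, tm_zero]
  rfl

theorem X_tm6 : tm 6 = false := by
  have h1 : tm 6 = tm 3 := tm_even 3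
  have h2 : tm 3 = !tm 1 := tm_odd 1
  have h3 : tm 1 = !tm 0 := tm_odd 0
  rw [h1, h2, h3, tm_zero]
  rfl

theorem X_xs_tm (k : ℕ) (i : ℤ) (h1 : -(4 ^ k : ℕ) ≤ i) (h2 : i < (4 ^ k : ℕ)) :
    xs i = tm (6 * 4 ^ k + i).toNat := by
  rcases le_or_gt 0 i with hi | hi
  · obtain ⟨n, rfl⟩ := Int.eq_ofNat_of_zero_le hi
    have hn : n < 4 ^ k := by exact_mod_cast h2
    have e : (6 * 4 ^ k + (n : ℤ)).toNat = 6 * 4 ^ k + n := by
      have : (6 * 4 ^ k + (n : ℤ)) = ((6 * 4 ^ k + n : ℕ) : ℤ) := by push_cast; ring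
      rw [this, Int.toNat_natCast]
    rw [X_xs_nat, e, tm_add 6 k n hn, X_tm6, Bool.false_xor]
  · obtain ⟨n, hn⟩ : ∃ n : ℕ, i = -1 - (n : ℤ) := ⟨(-1 - i).toNat, by omega⟩
    have hn4 : n < 4 ^ k := by
      have : (n : ℤ) < ((4 ^ k : ℕ) : ℤ) := by omega
      exact_mod_cast this
    have e : (6 * 4 ^ k + i).toNat = 5 * 4 ^ k + (4 ^ k - 1 - n) := by
      have : (6 * 4 ^ k + i) = ((5 * 4 ^ k + (4 ^ k - 1 - n) : ℕ) : ℤ) := by
        have h3 : ((4 ^ k - 1 - n : ℕ) : ℤ) = (4 ^ k : ℤ) - 1 - n := by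
          have h4 : 4 ^ k - 1 - n + (n + 1) = 4 ^ k := by omega
          have h5 : ((4 ^ k - 1 - n : ℕ) : ℤ) + (n + 1) = (4 ^ k : ℤ) := by exact_mod_cast h4
          linarith
        push_cast
        rw [h3, hn]
        ring
      rw [this, Int.toNat_natCast]
    rw [e, tm_add 5 k _ (by omega), X_tm5, Bool.false_xor, tm_mirror k n hn4]
    unfold xs
    rw [if_neg (by omega), hn]
    congr 1
    omega

theorem xs_inX : InX xs := by
  intro i l
  obtain ⟨k, hk⟩ : ∃ k : ℕ, i.natAbs + l ≤ 4 ^ k :=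
    ⟨i.natAbs + l, (Nat.lt_pow_self (by norm_num)).le⟩
  refine ⟨2 * k + 3, false, by omega, ?_⟩
  have hpow : 2 ^ (2 * k + 3) = 8 * 4 ^ k := by
    rw [pow_add, pow_mul]
    norm_num
    ring
  have hpos : 1 ≤ 4 ^ k := Nat.one_le_pow _ _ (by norm_num)
  have hpow' : ((4 ^ k : ℕ) : ℤ) = (4 : ℤ) ^ k := by push_cast; ring
  obtain ⟨Q, hQ⟩ : ∃ Q : ℕ, (Q : ℤ) = 6 * 4 ^ k + i := by
    refine ⟨(6 * 4 ^ k + i).toNat, ?_⟩
    rw [Int.toNat_of_nonneg]
    rw [← hpow']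
    omega
  have hQl : Q + l ≤ 2 ^ (2 * k + 3) := by
    rw [hpow]
    have : (Q : ℤ) + l ≤ 8 * ((4 ^ k : ℕ) : ℤ) := by
      rw [hQ, ← hpow']
      omega
    exact_mod_cast this
  have hwin : (List.range l).map (fun j : ℕ => xs (i + j)) =
      (List.range l).map (fun j : ℕ => xor false (tm (Q + j))) := by
    apply List.map_congr_left
    intro j hj
    have hj' := List.mem_range.mp hj
    rw [X_xs_tm k (i + j) (by omega) (by omega), Bool.false_xor]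
    congr 1
    rw [← add_assoc, ← hQ]
    omega
  rw [hwin, sub_iter]
  obtain ⟨r, hr⟩ : ∃ r, 2 ^ (2 * k + 3) = Q + (l + r) := ⟨2 ^ (2 * k + 3) - Q - l, by omega⟩
  have ha1 : List.range (Q + (l + r)) =
      List.range Q ++ (List.range (l + r)).map (fun x => Q + x) := List.range_add
  have ha2 : List.range (l + r) = List.range l ++ (List.range r).map (fun x => l + x) :=
    List.range_add
  rw [hr, ha1, ha2, List.map_append, List.map_append, List.map_append]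
  refine ⟨(List.range Q).map fun i => xor false (tm i),
    (((List.range r).map (fun x => l + x)).map (fun x => Q + x)).map
      fun i => xor false (tm i), ?_⟩
  rw [List.append_assoc]
  congr 1
  congr 1
  rw [List.map_map]
  rfl

theorem X_Tk_nat (p j : ℕ) : (Tk p ⟨xs, xs_inX⟩ : MX).1 j = tm (p + j) := by
  show xs ((j : ℤ) + (p : ℤ)) = _
  have : (j : ℤ) + (p : ℤ) = ((p + j : ℕ) : ℤ) := by push_cast; ring
  rw [this, X_xs_nat]

theorem xs_ph (p : ℕ) : ph (Tk p ⟨xs, xs_inX⟩) = (p : ℤ) % 2 := by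
  unfold ph
  have h0 : (Tk p ⟨xs, xs_inX⟩ : MX).1 0 = tm p := X_Tk_nat p 0
  have h1 : (Tk p ⟨xs, xs_inX⟩ : MX).1 1 = tm (p + 1) := X_Tk_nat p 1
  have h2 : (Tk p ⟨xs, xs_inX⟩ : MX).1 2 = tm (p + 2) := X_Tk_nat p 2
  have h3 : (Tk p ⟨xs, xs_inX⟩ : MX).1 3 = tm (p + 3) := X_Tk_nat p 3
  rw [h0, h1, h2, h3]
  rcases Nat.even_or_odd' p with ⟨k, rfl | rfl⟩
  · have e2 : tm (2 * k + 2) = tm (k + 1) := tm_even (k + 1)
    have e3 : tm (2 * k + 3) = !tm (k + 1) := tm_odd (k + 1)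
    rw [tm_even, tm_odd, e2, e3, if_neg]
    · omega
    · simp
  · have e1 : tm (2 * k + 1 + 1) = tm (k + 1) := tm_even (k + 1)
    have e2 : tm (2 * k + 1 + 2) = !tm (k + 1) := tm_odd (k + 1)
    have e3 : tm (2 * k + 1 + 3) = tm (k + 2) := tm_even (k + 2)
    rw [tm_odd, e1, e2, e3, if_pos]
    · omega
    · have h := tm_no_cube k
      revert h
      cases tm k <;> cases tm (k + 1) <;> cases tm (k + 2) <;> simp

theorem xs_kx (p : ℕ) (J : ℤ) (h : 1 ≤ J + (p : ℤ) / 2) :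
    kx (Tk p ⟨xs, xs_inX⟩) J = kt (J + (p : ℤ) / 2) := by
  obtain ⟨m, hm⟩ : ∃ m : ℕ, J + (p : ℤ) / 2 = (m : ℤ) + 1 := ⟨(J + (p : ℤ) / 2 - 1).toNat, by omega⟩
  unfold kx
  rw [xs_ph]
  have e1 : (Tk p ⟨xs, xs_inX⟩ : MX).1 (2 * J - 2 - (p : ℤ) % 2) = tm m := by
    show xs (2 * J - 2 - (p : ℤ) % 2 + p) = _
    have : 2 * J - 2 - (p : ℤ) % 2 + p = ((2 * m : ℕ) : ℤ) := by push_cast; omega
    rw [this, X_xs_nat, tm_even]
  have e2 : (Tk p ⟨xs, xs_inX⟩ : MX).1 (2 * J - (p : ℤ) % 2) = tm (m + 1) := by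
    show xs (2 * J - (p : ℤ) % 2 + p) = _
    have : 2 * J - (p : ℤ) % 2 + p = ((2 * (m + 1) : ℕ) : ℤ) := by push_cast; omega
    rw [this, X_xs_nat, tm_even]
  rw [e1, e2, hm]
  unfold kt
  have e3 : padicValInt 2 ((m : ℤ) + 1) = padicValNat 2 (m + 1) := by
    have : ((m : ℤ) + 1) = ((m + 1 : ℕ) : ℤ) := by push_cast; ring
    rw [this, padicValInt.of_nat]
  rw [e3]
  have hj := tm_junction m
  by_cases hE : Even (padicValNat 2 (m + 1))
  · rw [if_pos hE, if_neg (hj.mpr hE)]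
  · rw [if_neg hE, if_pos]
    by_contra hc
    exact hE (hj.mp hc)

theorem xs_aper (p : ℕ) (n : ℤ) (h : Tk n (Tk p ⟨xs, xs_inX⟩) = Tk p ⟨xs, xs_inX⟩) : n = 0 := by
  have h1 : ∀ i : ℤ, xs (i + n) = xs i := by
    intro i
    have h2 := congrFun (congrArg Subtype.val h) (i - p)
    have h3 : xs (i - p + n + p) = xs (i - p + p) := h2
    rw [show i - (p : ℤ) + n + p = i + n by ring, show i - (p : ℤ) + p = i by ring] at h3
    exact h3
  rcases lt_trichotomy n 0 with hn | hn | hn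
  · exfalso
    obtain ⟨m, hm⟩ : ∃ m : ℕ, n = -(m : ℤ) := ⟨(-n).toNat, by omega⟩
    refine tm_aper m (by omega) fun i => ?_
    have h2 := h1 ((i : ℤ) + m)
    rw [hm, show (i : ℤ) + m + -(m : ℤ) = i by ring, X_xs_nat,
      show (i : ℤ) + m = ((i + m : ℕ) : ℤ) by push_cast; ring, X_xs_nat] at h2
    exact h2.symm
  · exact hn
  · exfalso
    obtain ⟨m, rfl⟩ := Int.eq_ofNat_of_zero_le hn.le
    refine tm_aper m (by omega) fun i => ?_
    have h2 := h1 (i : ℤ)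
    rw [show (i : ℤ) + m = ((i + m : ℕ) : ℤ) by push_cast; ring, X_xs_nat, X_xs_nat] at h2
    exact h2

/-- shifting by `n`: phase and killed letters -/
theorem ph_Tk (x : MX) (n : ℤ) : ph (Tk n x) = (ph x + n) % 2 := by
  obtain ⟨Q, c, hQ, hx⟩ := mx_window x (n.natAbs + 3)
  have h1 : ph x = (Q : ℤ) % 2 :=
    ph_eq x Q c (fun j hj => hx j (hj.trans (by omega))) (by omega)
  obtain ⟨Q', hQ'⟩ : ∃ Q' : ℕ, (Q' : ℤ) = Q + n := ⟨(Q + n).toNat, by omega⟩
  have h2 : ph (Tk n x) = (Q' : ℤ) % 2 := by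
    refine ph_eq (Tk n x) Q' c (fun j hj => ?_) (by omega)
    show x.1 (j + n) = _
    have hj' := abs_le.mp hj
    rw [hx (j + n) (by
      rw [abs_le]
      constructor <;> omega), hQ']
    congr 2
    omega
  rw [h1, h2, hQ']
  omega

theorem kx_Tk (x : MX) (n J : ℤ) : kx (Tk n x) J = kx x (J + (ph x + n) / 2) := by
  unfold kx
  rw [ph_Tk]
  have e1 : (Tk n x).1 (2 * J - 2 - (ph x + n) % 2) =
      x.1 (2 * (J + (ph x + n) / 2) - 2 - ph x) := by
    show x.1 (2 * J - 2 - (ph x + n) % 2 + n) = _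
    have : 2 * J - 2 - (ph x + n) % 2 + n = 2 * (J + (ph x + n) / 2) - 2 - ph x := by omega
    rw [this]
  have e2 : (Tk n x).1 (2 * J - (ph x + n) % 2) = x.1 (2 * (J + (ph x + n) / 2) - ph x) := by
    show x.1 (2 * J - (ph x + n) % 2 + n) = _
    have : 2 * J - (ph x + n) % 2 + n = 2 * (J + (ph x + n) / 2) - ph x := by omega
    rw [this]
  rw [e1, e2]

end Pool.Agent.H776R2.Mor
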