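import Mathlib
import Pool.Agent.H776R2.Mor.Defs
import Pool.Agent.H776R2.Mor.Line
import Pool.Agent.H776R2.Mor.Xs

set_option autoImplicit false

/-! Task D: the generators as homeomorphisms in the topological full group. -/

namespace Pool.Agent.H776R2.Mor

open Pool.Agent.Results.MP_03d093_al.SphereBall Pool.Agent.H776R2.Grig Pool.Agent.H776R2.Om

theorem D_ph_mem (x : MX) : ph x = 0 ∨ ph x = 1 := by
  unfold ph
  split_ifs
  · exact Or.inr rfl
  · exact Or.inl rfl

theorem D_coord (x : MX) (i : ℤ) : ∀ᶠ y : MX in nhds x, y.1 i = x.1 i := by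
  have h : Continuous fun y : MX => y.1 i := (continuous_apply i).comp continuous_subtype_val
  have h1 : {b : Bool | b = x.1 i} ∈ nhds (x.1 i) := by
    rw [nhds_discrete]
    exact rfl
  exact h.continuousAt h1

theorem D_dis_ev (s : Lt) (x : MX) : ∀ᶠ y : MX in nhds x, dis s y = dis s x := by
  filter_upwards [D_coord x (-3), D_coord x (-2), D_coord x (-1), D_coord x 0, D_coord x 1,
    D_coord x 2, D_coord x 3] with y h1 h2 h3 h4 h5 h6 h7
  have hp : ph y = ph x := by
    unfold ph
    rw [h4, h5, h6, h7]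
  have hk0 : kx y 0 = kx x 0 := by
    unfold kx
    rw [hp]
    rcases D_ph_mem x with h | h <;> rw [h] <;> norm_num <;> simp [h1, h2, h3, h4, h5, h6, h7]
  have hk1 : kx y 1 = kx x 1 := by
    unfold kx
    rw [hp]
    rcases D_ph_mem x with h | h <;> rw [h] <;> norm_num <;> simp [h1, h2, h3, h4, h5, h6, h7]
  unfold dis
  rw [hp]
  congr 1
  rcases D_ph_mem x with h | h <;> rw [h] <;> cases s <;> simp [lact, hk0, hk1]

theorem dis_cont (s : Lt) : Continuous (dis s) := by
  have h : IsLocallyConstant (dis s) := (IsLocallyConstant.iff_eventually_eq _).2 (D_dis_ev s)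
  exact h.continuous

theorem Tk_cont (n : ℤ) : Continuous (Tk n) := by
  apply Continuous.subtype_mk
  apply continuous_pi
  intro i
  exact (continuous_apply (i + n)).comp continuous_subtype_val

theorem D_Tk_cont2 : Continuous fun p : ℤ × MX => Tk p.1 p.2 := by
  rw [continuous_prod_of_discrete_left]
  intro n
  exact Tk_cont n

theorem D_dis_Tk (s : Lt) (x : MX) (n : ℤ) :
    dis s (Tk n x) = lact (kx x) s (ph x + n) - (ph x + n) := by
  unfold dis
  rw [ph_Tk]
  have h1 : kx (Tk n x) = fun J => kx x (J + (ph x + n) / 2) := by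
    funext J
    exact kx_Tk x n J
  rw [h1, lact_shift]
  have h2 : (ph x + n) % 2 + 2 * ((ph x + n) / 2) = ph x + n := Int.emod_add_mul_ediv _ _
  rw [h2]
  have h3 : (ph x + n) = (ph x + n) % 2 + 2 * ((ph x + n) / 2) := h2.symm
  linarith

theorem D_invol (s : Lt) (x : MX) : Tk (dis s (Tk (dis s x) x)) (Tk (dis s x) x) = x := by
  rw [D_dis_Tk, Tk_add]
  have h1 : ph x + dis s x = lact (kx x) s (ph x) := by
    unfold dis
    ring
  rw [h1, lact_invol]
  have h2 : ph x - lact (kx x) s (ph x) + dis s x = 0 := by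
    unfold dis
    ring
  rw [h2, Tk_zero]

theorem D_cont (s : Lt) : Continuous fun x : MX => Tk (dis s x) x :=
  D_Tk_cont2.comp ((dis_cont s).prodMk continuous_id)

/-- the homeomorphism given by a letter -/
theorem hgen_exists (s : Lt) : ∃ g : MX ≃ₜ MX, g * g = 1 ∧ ∀ x, g x = Tk (dis s x) x := by
  refine ⟨⟨⟨fun x => Tk (dis s x) x, fun x => Tk (dis s x) x, D_invol s, D_invol s⟩,
    D_cont s, D_cont s⟩, ?_, fun x => rfl⟩
  ext1 x
  exact D_invol s x

noncomputable def hgen (s : Lt) : MX ≃ₜ MX := (hgen_exists s).choose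

noncomputable def hev (w : List Lt) : MX ≃ₜ MX := (w.map hgen).prod

theorem D_hgen (s : Lt) (x : MX) : hgen s x = Tk (dis s x) x := (hgen_exists s).choose_spec.2 x

theorem hev_apply (w : List Lt) (x : MX) : hev w x = Tk (lev (kx x) w (ph x) - ph x) x := by
  induction w with
  | nil =>
    have h : lev (kx x) [] (ph x) - ph x = 0 := by simp [lev]
    rw [h, Tk_zero]
    rfl
  | cons s w ih =>
    have h1 : hev (s :: w) x = hgen s (hev w x) := by
      unfold hev
      rw [List.map_cons, List.prod_cons]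
      rfl
    rw [h1, ih, D_hgen, D_dis_Tk, Tk_add]
    congr 1
    simp only [lev]
    have h2 : ph x + (lev (kx x) w (ph x) - ph x) = lev (kx x) w (ph x) := by ring
    rw [h2]
    ring

theorem full_one : InFull 1 := by
  refine ⟨fun _ => 0, continuous_const, fun x => ?_⟩
  rw [Tk_zero]
  rfl

theorem full_mul {g h : MX ≃ₜ MX} (hg : InFull g) (hh : InFull h) : InFull (g * h) := by
  obtain ⟨m, hm, hm'⟩ := hg
  obtain ⟨n, hn, hn'⟩ := hh
  refine ⟨fun x => m (h x) + n x, (hm.comp h.continuous).add hn, fun x => ?_⟩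
  have h1 : (g * h) x = g (h x) := rfl
  have h2 : Tk (m (h x)) (h x) = Tk (m (h x)) (Tk (n x) x) := congrArg _ (hn' x)
  rw [h1, hm', h2, Tk_add]

theorem full_inv {g : MX ≃ₜ MX} (hg : InFull g) : InFull g⁻¹ := by
  obtain ⟨m, hm, hm'⟩ := hg
  refine ⟨fun x => -m (g⁻¹ x), (hm.comp (g⁻¹ : MX ≃ₜ MX).continuous).neg, fun x => ?_⟩
  have h1 : g (g⁻¹ x) = x := by
    have h2 : (g * g⁻¹) x = x := by rw [mul_inv_cancel]; rfl
    exact h2
  rw [hm'] at h1
  have h3 : Tk (-m (g⁻¹ x)) (Tk (m (g⁻¹ x)) (g⁻¹ x)) = g⁻¹ x := by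
    rw [Tk_add, neg_add_cancel, Tk_zero]
  rw [h1] at h3
  exact h3.symm

theorem full_hgen (s : Lt) : InFull (hgen s) := ⟨dis s, dis_cont s, D_hgen s⟩

end Pool.Agent.H776R2.Mor
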