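import Mathlib
import Pool.Agent.H776R2.Mor.Defs

set_option autoImplicit false

/-! Task E: the tree action in Gray code coordinates. -/

namespace Pool.Agent.H776R2.Mor

open Pool.Agent.Results.MP_03d093_al.SphereBall Pool.Agent.H776R2.Grig Pool.Agent.H776R2.Om

theorem E_true_even (w : List Bool) (h : pos w % 2 = 0) : pos (true :: w) = 2 * pos w := by
  have h' : Even (pos w) := Nat.even_iff.mpr h
  simp [pos, h']

theorem E_true_odd (w : List Bool) (h : pos w % 2 = 1) : pos (true :: w) = 2 * pos w + 1 := by
  have h' : ¬ Even (pos w) := by rw [Nat.even_iff]; omega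
  simp [pos, h']

theorem E_false_even (w : List Bool) (h : pos w % 2 = 0) : pos (false :: w) = 2 * pos w + 1 := by
  have h' : Even (pos w) := Nat.even_iff.mpr h
  simp [pos, h']

theorem E_false_odd (w : List Bool) (h : pos w % 2 = 1) : pos (false :: w) = 2 * pos w := by
  have h' : ¬ Even (pos w) := by rw [Nat.even_iff]; omega
  simp [pos, h']

theorem E_cons (x : Bool) (w : List Bool) :
    pos (x :: w) = 2 * pos w ∨ pos (x :: w) = 2 * pos w + 1 := by
  rcases Nat.mod_two_eq_zero_or_one (pos w) with h | h <;> cases x
  · right; exact E_false_even w h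
  · left; exact E_true_even w h
  · left; exact E_false_odd w h
  · right; exact E_true_odd w h

theorem pos_lt (u : List Bool) : pos u < 2 ^ u.length := by
  induction u with
  | nil => simp [pos]
  | cons x w ih =>
    have h := E_cons x w
    rw [List.length_cons, pow_succ]
    omega

theorem pos_inj (u v : List Bool) (hl : u.length = v.length) (h : pos u = pos v) : u = v := by
  induction u generalizing v with
  | nil =>
    symm
    apply List.length_eq_zero_iff.mp
    rw [← hl]
    rfl
  | cons x u ih =>
    cases v with
    | nil => simp at hl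
    | cons y v =>
      have h1 := E_cons x u
      have h2 := E_cons y v
      have h3 : pos u = pos v := by omega
      have h4 : u = v := ih v (by simpa using hl) h3
      subst h4
      rcases Nat.mod_two_eq_zero_or_one (pos u) with h5 | h5 <;> cases x <;> cases y <;>
        first
        | rfl
        | (exfalso
           simp only [E_false_even u h5, E_true_even u h5] at h
           omega)
        | (exfalso
           simp only [E_false_odd u h5, E_true_odd u h5] at h
           omega)

theorem pos_surj (N p : ℕ) (hp : p < 2 ^ N) : ∃ u : List Bool, u.length = N ∧ pos u = p := by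
  induction N generalizing p with
  | zero => exact ⟨[], rfl, by simp at hp; simp [pos, hp]⟩
  | succ N ih =>
    obtain ⟨w, hw1, hw2⟩ := ih (p / 2) (by rw [pow_succ] at hp; omega)
    rcases Nat.mod_two_eq_zero_or_one (pos w) with h5 | h5 <;>
      rcases Nat.mod_two_eq_zero_or_one p with h6 | h6
    · exact ⟨true :: w, by simp [hw1], by rw [E_true_even w h5]; omega⟩
    · exact ⟨false :: w, by simp [hw1], by rw [E_false_even w h5]; omega⟩
    · exact ⟨false :: w, by simp [hw1], by rw [E_false_odd w h5]; omega⟩
    · exact ⟨true :: w, by simp [hw1], by rw [E_true_odd w h5]; omega⟩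

theorem pos_append (u z : List Bool) :
    2 ^ u.length * pos z ≤ pos (u ++ z) ∧ pos (u ++ z) < 2 ^ u.length * (pos z + 1) := by
  induction u with
  | nil => simp
  | cons x u ih =>
    have h := E_cons x (u ++ z)
    obtain ⟨h1, h2⟩ := ih
    have e1 : 2 ^ (x :: u).length * pos z = 2 * (2 ^ u.length * pos z) := by
      rw [List.length_cons, pow_succ]; ring
    have e2 : 2 ^ (x :: u).length * (pos z + 1) = 2 * (2 ^ u.length * (pos z + 1)) := by
      rw [List.length_cons, pow_succ]; ring
    rw [e1, e2, List.cons_append]
    generalize 2 ^ u.length * pos z = A at *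
    generalize 2 ^ u.length * (pos z + 1) = B at *
    omega

theorem E_aFun_len (u : List Bool) : (aFun u).length = u.length := by
  cases u <;> simp [aFun]

theorem E_aFun_pos (u : List Bool) (hu : u ≠ []) :
    (pos u % 2 = 0 → pos (aFun u) = pos u + 1) ∧ (pos u % 2 = 1 → pos (aFun u) = pos u - 1) := by
  cases u with
  | nil => exact absurd rfl hu
  | cons x w =>
    rcases Nat.mod_two_eq_zero_or_one (pos w) with h5 | h5 <;> cases x
    · have e1 := E_false_even w h5
      have e2 := E_true_even w h5
      have e3 : aFun (false :: w) = true :: w := rfl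
      rw [e3]
      omega
    · have e1 := E_false_even w h5
      have e2 := E_true_even w h5
      have e3 : aFun (true :: w) = false :: w := rfl
      rw [e3]
      omega
    · have e1 := E_false_odd w h5
      have e2 := E_true_odd w h5
      have e3 : aFun (false :: w) = true :: w := rfl
      rw [e3]
      omega
    · have e1 := E_false_odd w h5
      have e2 := E_true_odd w h5
      have e3 : aFun (true :: w) = false :: w := rfl
      rw [e3]
      omega

theorem E_xFun_len (x : V) (u : List Bool) : ∀ ω : Om, (xFun x ω u).length = u.length := by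
  induction u with
  | nil => intro ω; rfl
  | cons y w ih =>
    intro ω
    cases y
    · simp only [xFun]
      split_ifs
      · simp [E_aFun_len]
      · simp
    · simp [xFun, ih]

theorem E_val_odd (j : ℕ) (h : j % 2 = 1) : padicValNat 2 j = 0 := by
  apply padicValNat.eq_zero_of_not_dvd
  omega

theorem E_val_two (j : ℕ) (h : 1 ≤ j) : padicValNat 2 (2 * j) = padicValNat 2 j + 1 := by
  rw [padicValNat.mul (by norm_num) (by omega), padicValNat.self (by norm_num)]
  ring

/-- the general lemma -/
theorem E_xFun (x : V) (u : List Bool) : ∀ ω : Om,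
    ((pos u = 0 ∨ pos u + 1 = 2 ^ u.length) → pos (xFun x ω u) = pos u) ∧
    (0 < pos u → pos u + 1 < 2 ^ u.length →
      (pos u % 2 = 0 → pos (xFun x ω u) =
        if kil (ω (padicValNat 2 (pos u / 2))) = x then pos u else pos u - 1) ∧
      (pos u % 2 = 1 → pos (xFun x ω u) =
        if kil (ω (padicValNat 2 ((pos u + 1) / 2))) = x then pos u else pos u + 1)) := by
  induction u with
  | nil =>
    intro ω
    refine ⟨fun _ => rfl, fun h => ?_⟩
    simp [pos] at h
  | cons y w ih =>
    intro ω
    have hlt := pos_lt w
    have hpow : 2 ^ (y :: w).length = 2 * 2 ^ w.length := by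
      rw [List.length_cons, pow_succ]; ring
    rw [hpow]
    have hpar : w = [] ∨ 2 ^ w.length % 2 = 0 := by
      cases w with
      | nil => left; rfl
      | cons z w' => right; rw [List.length_cons, pow_succ]; omega
    cases y
    · -- false :: w
      have hx : xFun x ω (false :: w) = false :: (if x = kil (ω 0) then w else aFun w) := by
        simp only [xFun, col_eq]
        by_cases h : x = kil (ω 0)
        · simp [h]
        · simp [h]
      rw [hx]
      rcases Nat.mod_two_eq_zero_or_one (pos w) with h5 | h5
      · have e1 := E_false_even w h5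
        rcases hpar with hw | hw
        · subst hw
          have e2 : (if x = kil (ω 0) then ([] : List Bool) else aFun []) = [] := by
            split_ifs <;> rfl
          rw [e2]
          refine ⟨fun _ => rfl, fun _ h => ?_⟩
          exfalso
          simp [pos] at h
        · have hne : w ≠ [] := by
            rintro rfl
            simp at hw
          obtain ⟨ha, -⟩ := E_aFun_pos w hne
          have ha1 := ha h5
          refine ⟨fun h => ?_, fun h1 h2 => ⟨fun h3 => ?_, fun _ => ?_⟩⟩
          · exfalso; omega
          · exfalso; omega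
          · have e3 : (pos (false :: w) + 1) / 2 = pos w + 1 := by omega
            rw [e3, E_val_odd _ (by omega)]
            by_cases hk : kil (ω 0) = x
            · rw [if_pos hk, if_pos hk.symm]
            · rw [if_neg hk, if_neg (fun h => hk h.symm), E_false_odd (aFun w) (by omega)]
              omega
      · have e1 := E_false_odd w h5
        have hne : w ≠ [] := by
          rintro rfl
          simp [pos] at h5
        obtain ⟨-, ha⟩ := E_aFun_pos w hne
        have ha1 := ha h5
        refine ⟨fun h => ?_, fun h1 h2 => ⟨fun _ => ?_, fun h3 => ?_⟩⟩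
        · exfalso; omega
        · have e3 : pos (false :: w) / 2 = pos w := by omega
          rw [e3, E_val_odd _ (by omega)]
          by_cases hk : kil (ω 0) = x
          · rw [if_pos hk, if_pos hk.symm]
          · rw [if_neg hk, if_neg (fun h => hk h.symm), E_false_even (aFun w) (by omega)]
            omega
        · exfalso; omega
    · -- true :: w
      have hx : xFun x ω (true :: w) = true :: xFun x (sh ω) w := rfl
      rw [hx]
      obtain ⟨ih1, ih2⟩ := ih (sh ω)
      rcases Nat.mod_two_eq_zero_or_one (pos w) with h5 | h5
      · have e1 := E_true_even w h5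
        refine ⟨fun h => ?_, fun h1 h2 => ⟨fun _ => ?_, fun h3 => ?_⟩⟩
        · have h0 : pos w = 0 := by omega
          have h6 := ih1 (Or.inl h0)
          rw [E_true_even _ (by omega)]
          omega
        · have h7 : pos w + 1 < 2 ^ w.length := by
            rcases hpar with hw | hw
            · subst hw
              simp [pos] at h1
            · omega
          obtain ⟨ih3, -⟩ := ih2 (by omega) h7
          have ih4 := ih3 h5
          have e3 : pos (true :: w) / 2 = 2 * (pos w / 2) := by omega
          rw [e3, E_val_two _ (by omega)]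
          have e4 : ω (padicValNat 2 (pos w / 2) + 1) = sh ω (padicValNat 2 (pos w / 2)) := rfl
          rw [e4]
          by_cases hk : kil (sh ω (padicValNat 2 (pos w / 2))) = x
          · rw [if_pos hk] at ih4 ⊢
            rw [E_true_even _ (by omega)]
            omega
          · rw [if_neg hk] at ih4 ⊢
            rw [E_true_odd _ (by omega)]
            omega
        · exfalso; omega
      · have e1 := E_true_odd w h5
        refine ⟨fun h => ?_, fun h1 h2 => ⟨fun h3 => ?_, fun _ => ?_⟩⟩
        · have h0 : pos w + 1 = 2 ^ w.length := by omega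
          have h6 := ih1 (Or.inr h0)
          rw [E_true_odd _ (by omega)]
          omega
        · exfalso; omega
        · obtain ⟨-, ih3⟩ := ih2 (by omega) (by omega)
          have ih4 := ih3 h5
          have e3 : (pos (true :: w) + 1) / 2 = 2 * ((pos w + 1) / 2) := by omega
          rw [e3, E_val_two _ (by omega)]
          have e4 : ω (padicValNat 2 ((pos w + 1) / 2) + 1) =
            sh ω (padicValNat 2 ((pos w + 1) / 2)) := rfl
          rw [e4]
          by_cases hk : kil (sh ω (padicValNat 2 ((pos w + 1) / 2))) = x
          · rw [if_pos hk] at ih4 ⊢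
            rw [E_true_odd _ (by omega)]
            omega
          · rw [if_neg hk] at ih4 ⊢
            rw [E_true_even _ (by omega)]
            omega

theorem E_kil_om (J : ℕ) : kil (om (padicValNat 2 J)) = kt (J : ℤ) := by
  simp only [om, kt, padicValInt.of_nat]
  split_ifs <;> rfl

theorem E_lact_even (k : ℤ → V) (x : V) (p : ℤ) (h : Even p) :
    lact k x.lt p = if k (p / 2) = x then p else p - 1 := by
  cases x <;> simp [lact, V.lt, h]

theorem E_lact_odd (k : ℤ → V) (x : V) (p : ℤ) (h : ¬ Even p) :
    lact k x.lt p = if k ((p + 1) / 2) = x then p else p + 1 := by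
  cases x <;> simp [lact, V.lt, h]

theorem E_pos_xx (x : V) (u : List Bool) (h1 : 1 ≤ pos u) (h2 : pos u + 1 < 2 ^ u.length) :
    (pos (xFun x om u) : ℤ) = lact kt x.lt (pos u) := by
  obtain ⟨-, h3⟩ := E_xFun x u om
  obtain ⟨h4, h5⟩ := h3 (by omega) h2
  rcases Nat.mod_two_eq_zero_or_one (pos u) with h6 | h6
  · have h7 := h4 h6
    rw [E_kil_om] at h7
    have h8 : Even (pos u : ℤ) := by rw [Int.even_iff]; omega
    rw [E_lact_even _ _ _ h8, h7]
    have e : ((pos u / 2 : ℕ) : ℤ) = (pos u : ℤ) / 2 := by omega
    rw [e]
    split_ifs <;> omega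
  · have h7 := h5 h6
    rw [E_kil_om] at h7
    have h8 : ¬ Even (pos u : ℤ) := by rw [Int.even_iff]; omega
    rw [E_lact_odd _ _ _ h8, h7]
    have e : (((pos u + 1) / 2 : ℕ) : ℤ) = ((pos u : ℤ) + 1) / 2 := by omega
    rw [e]
    split_ifs <;> omega

theorem pos_gno (s : Lt) (u : List Bool) (h1 : 1 ≤ pos u) (h2 : pos u + 1 < 2 ^ u.length) :
    (pos (gno om s u) : ℤ) = lact kt s (pos u) := by
  cases s
  · have hne : u ≠ [] := by
      rintro rfl
      simp [pos] at h1
    obtain ⟨h3, h4⟩ := E_aFun_pos u hne
    have e : gno om Lt.A u = aFun u := rfl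
    rw [e]
    rcases Nat.mod_two_eq_zero_or_one (pos u) with h6 | h6
    · have h8 : Even (pos u : ℤ) := by rw [Int.even_iff]; omega
      have h7 := h3 h6
      simp only [lact, if_pos h8]
      omega
    · have h8 : ¬ Even (pos u : ℤ) := by rw [Int.even_iff]; omega
      have h7 := h4 h6
      simp only [lact, if_neg h8]
      omega
  · exact E_pos_xx V.b u h1 h2
  · exact E_pos_xx V.c u h1 h2
  · exact E_pos_xx V.d u h1 h2

theorem E_gno_len (s : Lt) (u : List Bool) : (gno om s u).length = u.length := by
  cases s
  · exact E_aFun_len u
  · exact E_xFun_len V.b u om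
  · exact E_xFun_len V.c u om
  · exact E_xFun_len V.d u om

theorem E_evo_len (w : List Lt) (u : List Bool) : (evo om w u).length = u.length := by
  induction w with
  | nil => rfl
  | cons s w ih =>
    rw [evo_cons, Equiv.Perm.mul_apply, E_gno_len, ih]

theorem E_lact_dist (k : ℤ → V) (s : Lt) (p : ℤ) : |lact k s p - p| ≤ 1 := by
  cases s <;> simp only [lact] <;> split_ifs <;> simp

theorem E_lev_dist (k : ℤ → V) (w : List Lt) (p : ℤ) : |lev k w p - p| ≤ w.length := by
  induction w with
  | nil => simp [lev]
  | cons s w ih =>
    have h := E_lact_dist k s (lev k w p)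
    simp only [lev, List.length_cons]
    rw [abs_le] at *
    push_cast
    constructor <;> linarith [h.1, h.2, ih.1, ih.2]

theorem pos_evo (w : List Lt) (u : List Bool) (h1 : w.length ≤ pos u)
    (h2 : pos u + w.length < 2 ^ u.length) : (pos (evo om w u) : ℤ) = lev kt w (pos u) := by
  induction w with
  | nil => rfl
  | cons s w ih =>
    simp only [List.length_cons] at h1 h2
    have ih' := ih (by omega) (by omega)
    have hd := E_lev_dist kt w (pos u)
    rw [← ih', abs_le] at hd
    rw [evo_cons, Equiv.Perm.mul_apply]
    have h3 : 1 ≤ pos (evo om w u) := by omega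
    have h4 : pos (evo om w u) + 1 < 2 ^ (evo om w u).length := by
      rw [E_evo_len]
      omega
    rw [pos_gno s _ h3 h4, ih']
    rfl

end Pool.Agent.H776R2.Mor
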