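import Mathlib
import Pool.Agent.H776R2.Mor.MX
import Pool.Agent.H776R2.Mor.Xs
import Pool.Agent.H776R2.Mor.Line
import Pool.Agent.H776R2.Mor.Gen
import Pool.Agent.H776R2.Mor.Tree

set_option autoImplicit false

/-! Task F: a word is trivial in the full group iff it is trivial in `G_(01)`. -/

namespace Pool.Agent.H776R2.Mor

open Pool.Agent.Results.MP_03d093_al.SphereBall Pool.Agent.H776R2.Grig Pool.Agent.H776R2.Om

theorem F_ph (x : MX) : ph x = 0 ∨ ph x = 1 := by
  unfold ph
  split_ifs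
  · exact Or.inr rfl
  · exact Or.inl rfl

theorem F_bwd (w : List Lt) (h : evo om w = 1) : hev w = 1 := by
  ext1 x
  rw [hev_apply]
  have he := F_ph x
  obtain ⟨q, hq, hk⟩ := kx_eq x (w.length + 5)
  have e1 : lev (kx x) w (ph x) = lev (fun J => kt (J + q)) w (ph x) := by
    apply lev_congr
    intro J hJ
    apply hk
    rw [abs_le] at hJ ⊢
    push_cast
    constructor
    · rcases he with he | he <;> omega
    · rcases he with he | he <;> omega
  rw [e1, lev_shift kt q w (ph x)]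
  -- the position
  obtain ⟨p, hp⟩ : ∃ p : ℕ, (p : ℤ) = ph x + 2 * q := by
    refine ⟨(ph x + 2 * q).toNat, ?_⟩
    rcases he with he | he <;> omega
  obtain ⟨N, hN⟩ : ∃ N : ℕ, p + w.length < 2 ^ N := ⟨p + w.length, Nat.lt_two_pow_self⟩
  obtain ⟨u, hu, hpu⟩ := pos_surj N p (by omega)
  have h1 := pos_evo w u (by rcases he with he | he <;> omega) (by rw [hpu, hu]; exact hN)
  rw [h, hpu] at h1
  have h2 : (pos ((1 : P) u) : ℤ) = p := by
    rw [Equiv.Perm.one_apply, hpu]
  rw [h2] at h1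
  rw [← hp, ← h1]
  have h3 : (p : ℤ) - 2 * q - ph x = 0 := by omega
  rw [h3, Tk_zero]
  rfl

theorem F_interior (w : List Lt) (h : hev w = 1) (p : ℕ) (hp : w.length + 3 ≤ p) :
    lev kt w p = p := by
  have h1 := hev_apply w (Tk p ⟨xs, xs_inX⟩)
  rw [h, xs_ph] at h1
  have h2 : Tk (lev (kx (Tk p ⟨xs, xs_inX⟩)) w ((p : ℤ) % 2) - (p : ℤ) % 2) (Tk p ⟨xs, xs_inX⟩) =
      Tk p ⟨xs, xs_inX⟩ := h1.symm
  have h3 := xs_aper p _ h2
  have e1 : lev (kx (Tk p ⟨xs, xs_inX⟩)) w ((p : ℤ) % 2) =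
      lev (fun J => kt (J + (p : ℤ) / 2)) w ((p : ℤ) % 2) := by
    apply lev_congr
    intro J hJ
    apply xs_kx
    rw [abs_le] at hJ
    omega
  rw [e1, lev_shift kt ((p : ℤ) / 2) w ((p : ℤ) % 2)] at h3
  have e2 : (p : ℤ) % 2 + 2 * ((p : ℤ) / 2) = p := by omega
  rw [e2] at h3
  omega

theorem F_fwd (w : List Lt) (h : hev w = 1) : evo om w = 1 := by
  ext1 u
  rw [Equiv.Perm.one_apply]
  -- a long continuation with the position in the middle
  obtain ⟨z, hz, hpz⟩ := pos_surj (w.length + 4) (w.length + 3) (by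
    have : w.length + 4 < 2 ^ (w.length + 4) := Nat.lt_two_pow_self
    omega)
  obtain ⟨h1, h2⟩ := pos_append u z
  rw [hpz] at h1 h2
  have h3 : 1 ≤ 2 ^ u.length := Nat.one_le_two_pow
  have h4 : w.length + 3 ≤ 2 ^ u.length * (w.length + 3) := Nat.le_mul_of_pos_left _ h3
  have hp1 : w.length + 3 ≤ pos (u ++ z) := by omega
  have h5 : 2 * (w.length + 4) ≤ 2 ^ (w.length + 4) := by
    have : ∀ n : ℕ, 4 ≤ n → 2 * n ≤ 2 ^ n := by
      intro n hn
      induction n, hn using Nat.le_induction with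
      | base => norm_num
      | succ n hn ih => rw [pow_succ]; omega
    exact this _ (by omega)
  have hp2 : pos (u ++ z) + w.length < 2 ^ (u ++ z).length := by
    rw [List.length_append, pow_add, hz]
    have h6 : 2 ^ u.length * (2 * (w.length + 4)) ≤ 2 ^ u.length * 2 ^ (w.length + 4) :=
      Nat.mul_le_mul_left _ h5
    have h7 : 2 ^ u.length * (2 * (w.length + 4)) =
        2 ^ u.length * (w.length + 3 + 1) + 2 ^ u.length * (w.length + 4) := by ring
    have h8 : w.length + 4 ≤ 2 ^ u.length * (w.length + 4) := Nat.le_mul_of_pos_left _ h3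
    omega
  have h6 := pos_evo w (u ++ z) (by omega) hp2
  rw [F_interior w h _ hp1] at h6
  have h7 : pos (evo om w (u ++ z)) = pos (u ++ z) := by exact_mod_cast h6
  have hta := ta_evo om w
  have h8 := pos_inj _ _ (hta.1 (u ++ z)) h7
  have h9 := hta.2 (u ++ z) u.length
  rw [h8, List.take_left] at h9
  exact h9.symm

theorem match_iff (w : List Lt) : hev w = 1 ↔ evo om w = 1 := ⟨F_fwd w, F_bwd w⟩

end Pool.Agent.H776R2.Mor
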