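import Mathlib
import Pool.Agent.H776R2.Mor.Defs
import Pool.Agent.H776R2.Om.Basic
import Pool.Agent.H776R2.Mor.Gen
import Pool.Agent.H776R2.Mor.Match

set_option autoImplicit false

/-! Task I: the two balls have the same number of elements. -/

namespace Pool.Agent.H776R2.Mor

open Pool.Agent.Results.MP_03d093_al.SphereBall Pool.Agent.H776R2.Grig Pool.Agent.H776R2.Om

theorem I_hgen_sq (s : Lt) : hgen s * hgen s = 1 := (hgen_exists s).choose_spec.1

theorem I_hgen_inv (s : Lt) : (hgen s)⁻¹ = hgen s := by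
  rw [inv_eq_iff_mul_eq_one, I_hgen_sq]

theorem I_hev_nil : hev [] = 1 := rfl

theorem I_hev_cons (s : Lt) (w : List Lt) : hev (s :: w) = hgen s * hev w := by
  simp [hev]

theorem I_hev_append (v w : List Lt) : hev (v ++ w) = hev v * hev w := by
  simp [hev]

theorem I_hev_reverse (w : List Lt) : hev w.reverse = (hev w)⁻¹ := by
  induction w with
  | nil => simp [I_hev_nil]
  | cons s u ih =>
    rw [List.reverse_cons, I_hev_append, ih, I_hev_cons, I_hev_cons, I_hev_nil, mul_one,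
      mul_inv_rev, I_hgen_inv]

theorem I_hev_eq_iff (w w' : List Lt) : hev w = hev w' ↔ evo om w = evo om w' := by
  have h1 : hev w = hev w' ↔ hev (w ++ w'.reverse) = 1 := by
    rw [I_hev_append, I_hev_reverse, mul_inv_eq_one]
  have h2 : evo om w = evo om w' ↔ evo om (w ++ w'.reverse) = 1 := by
    rw [evo_append, evo_reverse, mul_inv_eq_one]
  rw [h1, h2, match_iff]

theorem I_list_word (l : List (MX ≃ₜ MX))
    (h : ∀ s ∈ l, s ∈ {g : MX ≃ₜ MX | ∃ s : Lt, g = hgen s} ∨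
      s⁻¹ ∈ {g : MX ≃ₜ MX | ∃ s : Lt, g = hgen s}) :
    ∃ w : List Lt, w.map hgen = l := by
  induction l with
  | nil => exact ⟨[], rfl⟩
  | cons s l ih =>
    obtain ⟨w, hw⟩ := ih (fun t ht => h t (List.mem_cons_of_mem _ ht))
    obtain ⟨t, ht⟩ : ∃ t : Lt, s = hgen t := by
      rcases h s (by simp) with ⟨t, ht⟩ | ⟨t, ht⟩
      · exact ⟨t, ht⟩
      · refine ⟨t, ?_⟩
        rw [← inv_inv s, ht, I_hgen_inv]
    exact ⟨t :: w, by simp [hw, ht]⟩

theorem bS_eq (n : ℕ) : bS {g | ∃ s : Lt, g = hgen s} n = ballO om n := by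
  unfold bS ballO
  symm
  choose W hWl hW using exists_geodo om
  have key : ∀ g : {g : Gom om // lenO om g ≤ n}, ∃ l : List (MX ≃ₜ MX), l.length ≤ n ∧
      (∀ s ∈ l, s ∈ {g : MX ≃ₜ MX | ∃ s : Lt, g = hgen s} ∨
        s⁻¹ ∈ {g : MX ≃ₜ MX | ∃ s : Lt, g = hgen s}) ∧ l.prod = hev (W g.1) := by
    intro g
    refine ⟨(W g.1).map hgen, ?_, ?_, rfl⟩
    · rw [List.length_map, hWl]
      exact g.2
    · intro s hs
      obtain ⟨t, -, rfl⟩ := List.mem_map.1 hs
      exact Or.inl ⟨t, rfl⟩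
  refine Nat.card_congr (Equiv.ofBijective (fun g => ⟨hev (W g.1), key g⟩) ⟨?_, ?_⟩)
  · intro g g' hgg
    have h1 : hev (W g.1) = hev (W g'.1) := congrArg Subtype.val hgg
    have h2 := (I_hev_eq_iff _ _).1 h1
    apply Subtype.ext
    rw [← hW g.1, ← hW g'.1]
    exact Subtype.ext h2
  · rintro ⟨b, l, hl, hs, hb⟩
    obtain ⟨w, rfl⟩ := I_list_word l hs
    have hwn : w.length ≤ n := by simpa using hl
    refine ⟨⟨evG om w, (lenO_le om w).trans hwn⟩, ?_⟩
    apply Subtype.ext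
    show hev (W (evG om w)) = b
    rw [← hb]
    exact (I_hev_eq_iff _ _).2 (congrArg Subtype.val (hW (evG om w)))

end Pool.Agent.H776R2.Mor
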