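import Mathlib
import Pool.Agent.H776R2.Mor.Defs
import Pool.Agent.H776R2.Om.Jsub
import Pool.Agent.H776R2.Om.Basic

set_option autoImplicit false

/-! Task H: the lifting of the subgroups `J` along a path and powers of `a b`. -/

namespace Pool.Agent.H776R2.Mor

open Pool.Agent.Results.MP_03d093_al.SphereBall Pool.Agent.H776R2.Grig Pool.Agent.H776R2.Om

theorem J_chain (k : ℕ) : ∀ (θ : Om) (g : P), g ∈ Jset (kil (θ k)) (shi (k + 1) θ) →
    ∀ v : List Bool, v.length = k → ∃ f ∈ Jset (kil (θ 0)) (sh θ),
    (∀ u, f (v ++ u) = v ++ g u) ∧ (∀ u : List Bool, k ≤ u.length → u.take k ≠ v → f u = u) := by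
  induction k with
  | zero =>
    intro θ g hg v hv
    obtain rfl := List.length_eq_zero_iff.1 hv
    refine ⟨g, hg, fun u => rfl, fun u _ hu => ?_⟩
    exact absurd (List.take_zero (l := u)) hu
  | succ k ih =>
    intro θ g hg v hv
    cases v with
    | nil => simp at hv
    | cons y v' =>
      have hv' : v'.length = k := by simpa using hv
      obtain ⟨f', hf', h1, h2⟩ := ih (sh θ) g hg v' hv'
      obtain ⟨f, hf, hs⟩ := J_lift θ hf'
      cases y with
      | false =>
        refine ⟨f, hf, fun u => ?_, fun u hu hne => ?_⟩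
        · rw [List.cons_append, (hs _).1, h1, List.cons_append]
        · cases u with
          | nil => simp at hu
          | cons z u' =>
            have hu' : k ≤ u'.length := by simpa using hu
            cases z with
            | false =>
              rw [(hs _).1, h2 u' hu' (fun h => hne (by rw [List.take_succ_cons, h]))]
            | true => rw [(hs _).2]; rfl
      | true =>
        have hc := J_conj hf (a_mem (sh θ))
        rw [J_a_inv] at hc
        have hs' := hs.conj
        refine ⟨a * f * a, hc, fun u => ?_, fun u hu hne => ?_⟩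
        · rw [List.cons_append, (hs' _).2, h1, List.cons_append]
        · cases u with
          | nil => simp at hu
          | cons z u' =>
            have hu' : k ≤ u'.length := by simpa using hu
            cases z with
            | true =>
              rw [(hs' _).2, h2 u' hu' (fun h => hne (by rw [List.take_succ_cons, h]))]
            | false => rw [(hs' _).1]; rfl

theorem H_pow {f f0 f1 : P} (h : Sec f f0 f1) (m : ℕ) : Sec (f ^ m) (f0 ^ m) (f1 ^ m) := by
  induction m with
  | zero => simpa using Sec.one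
  | succ m ih =>
    rw [pow_succ, pow_succ, pow_succ]
    exact ih.mul h

theorem H_sq (η : Om) (h : kil (η 0) ≠ V.b) :
    Sec ((a * xx η V.b) ^ 2) (xx (sh η) V.b * a) (a * xx (sh η) V.b) := by
  have hs := sec_xx η V.b
  rw [if_neg (Ne.symm h)] at hs
  have h2 := hs.conj.mul hs
  have he : (a * xx η V.b) ^ 2 = a * xx η V.b * a * xx η V.b := by
    rw [pow_two]
    simp only [mul_assoc]
  rw [he]
  exact h2

/-- `(a b)^n ≠ 1` if `b` is never killed -/
theorem ab_inf (n : ℕ) : ∀ η : Om, (∀ i, kil (η i) ≠ V.b) → (a * xx η V.b) ^ n = 1 → n = 0 := by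
  induction n using Nat.strong_induction_on with
  | _ n ih =>
    intro η hη hn
    obtain ⟨m, hm | hm⟩ := Nat.even_or_odd' n
    · have hs := H_pow (H_sq η (hη 0)) m
      rw [← pow_mul, ← hm, hn] at hs
      have h1 : (a * xx (sh η) V.b) ^ m = 1 := (Sec.unique hs Sec.one).2
      by_contra hne
      have hm0 := ih m (by omega) (sh η) (fun i => hη (i + 1)) h1
      omega
    · exfalso
      have hs := H_pow (H_sq η (hη 0)) m
      have he : (a * xx η V.b) ^ n = ((a * xx η V.b) ^ 2) ^ m * (a * xx η V.b) := by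
        rw [hm, pow_succ, pow_mul]
      have h1 : ((a * xx η V.b) ^ n) [false] = [false] := by rw [hn]; rfl
      rw [he, Equiv.Perm.mul_apply, Equiv.Perm.mul_apply] at h1
      have h2 : xx η V.b [false] = [false] := by
        show xFun V.b η [false] = [false]
        simp [xFun, aFun]
      rw [h2] at h1
      have h3 : a [false] = [true] := rfl
      rw [h3, (hs []).2] at h1
      simp at h1

theorem H_four {G : Type*} [Group G] (g : G) : g ^ 4 = g * g * g * g := by
  rw [pow_succ, pow_succ, pow_two]

theorem ab_J (η : Om) (x : V) (hx : x ≠ V.b) (h0 : kil (η 0) ≠ V.b) (h : x ≠ kil (η 0)) :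
    (a * xx η V.b) ^ 4 ∈ Jset x η := by
  have hb : xx η V.b = xx η (kil (η 0)) * xx η x :=
    (xx_mul η (kil (η 0)) x V.b (Ne.symm h) hx h0).symm
  have hr4 : (a * xx η (kil (η 0))) ^ 4 = 1 := by
    have hs := sec_xx η (kil (η 0))
    rw [if_pos rfl] at hs
    have h2 := H_pow (hs.conj.mul hs) 2
    rw [mul_one, one_mul, pow_two (xx (sh η) (kil (η 0))), xx_sq] at h2
    have he : (a * xx η (kil (η 0))) ^ 4 =
        (a * xx η (kil (η 0)) * a * xx η (kil (η 0))) ^ 2 := by
      rw [show (4 : ℕ) = 2 * 2 from rfl, pow_mul, pow_two (a * xx η (kil (η 0)))]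
      simp only [mul_assoc]
    rw [he]
    ext1 w
    match w with
    | [] =>
      have hn : ∀ z : V, xx η z [] = [] := fun z => rfl
      have ha : a [] = [] := rfl
      rw [pow_two]
      simp only [Equiv.Perm.mul_apply, hn, ha]
      rfl
    | false :: w => rw [(h2 w).1]; rfl
    | true :: w => rw [(h2 w).2]; rfl
  have hr : a * xx η (kil (η 0)) ∈ Gom η := Subgroup.mul_mem _ (a_mem η) (xx_mem η _)
  obtain ⟨r, hrr⟩ : ∃ r, r = a * xx η (kil (η 0)) := ⟨_, rfl⟩
  rw [← hrr] at hr4 hr
  have he : (a * xx η V.b) ^ 4 =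
      (r ^ 1 * xx η x * (r ^ 1)⁻¹ * (r ^ 2 * xx η x * (r ^ 2)⁻¹)) *
        (r ^ 3 * xx η x * (r ^ 3)⁻¹ * (r ^ 4 * xx η x * (r ^ 4)⁻¹)) * r ^ 4 := by
    rw [hb, ← mul_assoc, ← hrr, H_four]
    group
  rw [he, hr4, mul_one]
  refine Subgroup.mul_mem _ (J_two x η (Subgroup.pow_mem _ hr _) (Subgroup.pow_mem _ hr _)) ?_
  rw [← hr4]
  exact J_two x η (Subgroup.pow_mem _ hr _) (Subgroup.pow_mem _ hr _)

end Pool.Agent.H776R2.Mor
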