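import Mathlib
import Pool.Agent.H776R2.Mor.Defs
import Pool.Agent.H776R2.Om.Jsub
import Pool.Agent.H776R2.Om.Upper

set_option autoImplicit false

namespace Pool.Agent.H776R2.Mor

open Pool.Agent.Results.MP_03d093_al.SphereBall Pool.Agent.H776R2.Grig Pool.Agent.H776R2.Om

/-! Task A: TM.lean (the Thue-Morse sequence) -/

theorem tm_zero : tm 0 = false := sorry
theorem tm_even (n : ℕ) : tm (2 * n) = tm n := sorry
theorem tm_odd (n : ℕ) : tm (2 * n + 1) = !tm n := sorry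
theorem tm_no_cube (k : ℕ) : ¬ (tm k = tm (k + 1) ∧ tm (k + 1) = tm (k + 2)) := sorry
theorem tm_junction (J : ℕ) : tm J ≠ tm (J + 1) ↔ Even (padicValNat 2 (J + 1)) := sorry
/-- `tm (m 4^k + i) = tm m + tm i` for `i < 4^k` -/
theorem tm_add (m k i : ℕ) (h : i < 4 ^ k) : tm (m * 4 ^ k + i) = xor (tm m) (tm i) := sorry
theorem tm_mirror (k i : ℕ) (h : i < 4 ^ k) : tm (4 ^ k - 1 - i) = tm i := sorry
theorem tm_aper (n : ℕ) (hn : 1 ≤ n) : ¬ ∀ i : ℕ, tm (i + n) = tm i := sorry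
theorem sub_iter (n : ℕ) (a : Bool) :
    sub^[n] [a] = (List.range (2 ^ n)).map fun i => xor a (tm i) := sorry

/-! Task B: MX.lean (points of the subshift) -/

/-- every window of a point of the subshift is a window of `tm` (up to the exchange of `0` and `1`), far to
the right -/
theorem mx_window (x : MX) (m : ℕ) : ∃ (Q : ℕ) (c : Bool), m ≤ Q ∧
    ∀ j : ℤ, |j| ≤ m → x.1 j = xor c (tm (Q + j).toNat) := sorry
theorem ph_eq (x : MX) (Q : ℕ) (c : Bool)
    (h : ∀ j : ℤ, |j| ≤ 3 → x.1 j = xor c (tm (Q + j).toNat)) (hQ : 3 ≤ Q) :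
    ph x = (Q : ℤ) % 2 := sorry
/-- the killed letters of a point of the subshift are, on every window, those of the line far to the
right -/
theorem kx_eq (x : MX) (m : ℕ) : ∃ h : ℕ, m ≤ h ∧ ∀ J : ℤ, |J| ≤ m → kx x J = kt (J + h) := sorry
theorem xs_inX : InX xs := sorry
theorem xs_ph (p : ℕ) : ph (Tk p ⟨xs, xs_inX⟩) = (p : ℤ) % 2 := sorry
theorem xs_kx (p : ℕ) (J : ℤ) (h : 1 ≤ J + (p : ℤ) / 2) :
    kx (Tk p ⟨xs, xs_inX⟩) J = kt (J + (p : ℤ) / 2) := sorry
theorem xs_aper (p : ℕ) (n : ℤ) (h : Tk n (Tk p ⟨xs, xs_inX⟩) = Tk p ⟨xs, xs_inX⟩) : n = 0 := sorry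
theorem Tk_add (m n : ℤ) (x : MX) : Tk m (Tk n x) = Tk (m + n) x := sorry
theorem Tk_zero (x : MX) : Tk 0 x = x := sorry
/-- shifting by `n`: phase and killed letters -/
theorem ph_Tk (x : MX) (n : ℤ) : ph (Tk n x) = (ph x + n) % 2 := sorry
theorem kx_Tk (x : MX) (n J : ℤ) : kx (Tk n x) J = kx x (J + (ph x + n) / 2) := sorry

/-! Task C: Line.lean (the line model) -/

theorem lact_invol (k : ℤ → V) (s : Lt) (p : ℤ) : lact k s (lact k s p) = p := sorry
theorem lev_dist (k : ℤ → V) (w : List Lt) (p : ℤ) : |lev k w p - p| ≤ w.length := sorry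
/-- locality -/
theorem lev_congr (k k' : ℤ → V) (w : List Lt) (p : ℤ)
    (h : ∀ J : ℤ, |2 * J - p| ≤ w.length + 1 → k J = k' J) : lev k w p = lev k' w p := sorry
theorem lact_shift (k : ℤ → V) (m : ℤ) (s : Lt) (p : ℤ) :
    lact (fun J => k (J + m)) s p = lact k s (p + 2 * m) - 2 * m := sorry
theorem lev_shift (k : ℤ → V) (m : ℤ) (w : List Lt) (p : ℤ) :
    lev (fun J => k (J + m)) w p = lev k w (p + 2 * m) - 2 * m := sorry

/-! Task D: Gen.lean (the generators as homeomorphisms) -/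

theorem dis_cont (s : Lt) : Continuous (dis s) := sorry
theorem Tk_cont (n : ℤ) : Continuous (Tk n) := sorry
/-- the homeomorphism given by a letter -/
theorem hgen_exists (s : Lt) : ∃ g : MX ≃ₜ MX, g * g = 1 ∧ ∀ x, g x = Tk (dis s x) x := sorry
noncomputable def hgen (s : Lt) : MX ≃ₜ MX := (hgen_exists s).choose
noncomputable def hev (w : List Lt) : MX ≃ₜ MX := (w.map hgen).prod
theorem hev_apply (w : List Lt) (x : MX) : hev w x = Tk (lev (kx x) w (ph x) - ph x) x := sorry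
theorem full_one : InFull 1 := sorry
theorem full_mul {g h : MX ≃ₜ MX} (hg : InFull g) (hh : InFull h) : InFull (g * h) := sorry
theorem full_inv {g : MX ≃ₜ MX} (hg : InFull g) : InFull g⁻¹ := sorry
theorem full_hgen (s : Lt) : InFull (hgen s) := sorry

/-! Task E: Tree.lean (the tree action and the line) -/

theorem pos_lt (u : List Bool) : pos u < 2 ^ u.length := sorry
theorem pos_inj (u v : List Bool) (hl : u.length = v.length) (h : pos u = pos v) : u = v := sorry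
theorem pos_surj (N p : ℕ) (hp : p < 2 ^ N) : ∃ u : List Bool, u.length = N ∧ pos u = p := sorry
theorem pos_append (u z : List Bool) :
    2 ^ u.length * pos z ≤ pos (u ++ z) ∧ pos (u ++ z) < 2 ^ u.length * (pos z + 1) := sorry
theorem pos_gno (s : Lt) (u : List Bool) (h1 : 1 ≤ pos u) (h2 : pos u + 1 < 2 ^ u.length) :
    (pos (gno om s u) : ℤ) = lact kt s (pos u) := sorry
theorem pos_evo (w : List Lt) (u : List Bool) (h1 : w.length ≤ pos u)
    (h2 : pos u + w.length < 2 ^ u.length) : (pos (evo om w u) : ℤ) = lev kt w (pos u) := sorry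

/-! Task F: Match.lean -/

theorem match_iff (w : List Lt) : hev w = 1 ↔ evo om w = 1 := sorry

/-! Task G: Sub.lean (subexponential growth) -/

theorem ZO_fin (η : Om) (α : V → ℝ) (hα : Tri α) (s : ℝ) (hs : 0 < s)
    (h : Real.exp (-s * α .b) + Real.exp (-s * α .c) + Real.exp (-s * α .d) < 1) :
    ZO η α s < ⊤ := sorry
theorem al_om (k : ℕ) : al om k .b = 1 ∧ 1 + ((k : ℝ) - 1) / 4 ≤ al om k .c ∧
    1 + ((k : ℝ) - 1) / 4 ≤ al om k .d := sorry
theorem om_subexp (ε : ℝ) (hε : 0 < ε) :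
    ∃ N : ℕ, ∀ n : ℕ, N ≤ n → (ballO om n : ℝ) ≤ Real.exp (ε * n) := sorry

/-! Task H: Super.lean (superpolynomial growth) -/

theorem J_chain (k : ℕ) : ∀ (θ : Om) (g : P), g ∈ Jset (kil (θ k)) (shi (k + 1) θ) →
    ∀ v : List Bool, v.length = k → ∃ f ∈ Jset (kil (θ 0)) (sh θ),
    (∀ u, f (v ++ u) = v ++ g u) ∧ (∀ u : List Bool, k ≤ u.length → u.take k ≠ v → f u = u) := sorry
/-- `(a b)^n ≠ 1` if `b` is never killed -/
theorem ab_inf (n : ℕ) : ∀ η : Om, (∀ i, kil (η i) ≠ V.b) → (a * xx η V.b) ^ n = 1 → n = 0 := sorry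
theorem ab_J (η : Om) (x : V) (hx : x ≠ V.b) (h0 : kil (η 0) ≠ V.b) (h : x ≠ kil (η 0)) :
    (a * xx η V.b) ^ 4 ∈ Jset x η := sorry
theorem om_pow (k : ℕ) : ∃ C : ℕ, 1 ≤ C ∧ ∀ m : ℕ, (m + 1) ^ 2 ^ k ≤ ballO om (C * m) := sorry
theorem om_superpoly (d : ℕ) : ∃ N : ℕ, ∀ n : ℕ, N ≤ n → n ^ d ≤ ballO om n := sorry

/-! Task I: Count.lean -/

theorem bS_eq (n : ℕ) : bS {g | ∃ s : Lt, g = hgen s} n = ballO om n := sorry

end Pool.Agent.H776R2.Mor
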