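import Mathlib
import Pool.Agent.H776R2.Mor.Defs
import Pool.Agent.H776R2.Om.Norm
import Pool.Agent.H776R2.Om.KLen
import Pool.Agent.H776R2.Om.Wt
import Pool.Agent.H776R2.Om.Upper

set_option autoImplicit false

/-! Task G: subexponential growth of the group of the sequence `0 1 0 1 ...`. -/

namespace Pool.Agent.H776R2.Mor

open Pool.Agent.Results.MP_03d093_al.SphereBall Pool.Agent.H776R2.Grig Pool.Agent.H776R2.Om

theorem G_words (f : V → ENNReal) :
    ∑' v : List V, (v.map f).prod = ∑' n : ℕ, (f .b + f .c + f .d) ^ n := by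
  letI G_fin : Fintype V := ⟨{.b, .c, .d}, by intro x; cases x <;> simp⟩
  rw [← (List.equivSigmaTuple (α := V)).symm.tsum_eq, ENNReal.tsum_sigma']
  refine tsum_congr fun n => ?_
  have h1 : ∀ p : Fin n → V, (((List.equivSigmaTuple (α := V)).symm ⟨n, p⟩).map f).prod =
      ∏ i, f (p i) := by
    intro p
    show ((List.ofFn p).map f).prod = _
    rw [List.map_ofFn, List.prod_ofFn]
    rfl
  rw [tsum_congr h1, tsum_fintype, ← Fintype.sum_pow]
  congr 1
  show ∑ a ∈ ({.b, .c, .d} : Finset V), f a = _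
  rw [Finset.sum_insert (by decide), Finset.sum_insert (by decide), Finset.sum_singleton, add_assoc]

theorem G_prod (α : V → ℝ) (s : ℝ) (v : List V) :
    (v.map fun x => ENNReal.ofReal (Real.exp (-s * α x))).prod =
      ENNReal.ofReal (Real.exp (-s * Kwo α (U v))) := by
  induction v with
  | nil =>
    have h0 : Kwo α (U []) = 0 := rfl
    rw [h0]
    simp
  | cons x v ih =>
    rw [List.map_cons, List.prod_cons, ih, C_Kw_U_cons, C_wt_lt,
      ← ENNReal.ofReal_mul (Real.exp_pos _).le, ← Real.exp_add]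
    congr 2
    ring

theorem ZO_fin (η : Om) (α : V → ℝ) (hα : Tri α) (s : ℝ) (hs : 0 < s)
    (h : Real.exp (-s * α .b) + Real.exp (-s * α .c) + Real.exp (-s * α .d) < 1) :
    ZO η α s < ⊤ := by
  choose w hw hwK using fun g : Gom η => E_exists α g.2 one_pos
  choose e e' v hv using fun g : Gom η => normal_formo η α hα (w g)
  set Φ : Gom η → Bool × Bool × List V := fun g => (e g, e' g, v g) with hΦ
  have hinj : Function.Injective Φ := by
    intro g h hgh
    simp only [hΦ, Prod.mk.injEq] at hgh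
    obtain ⟨k1, k2, k3⟩ := hgh
    apply Subtype.ext
    rw [← hw g, ← hw h, (hv g).1, (hv h).1, k1, k2, k3]
  set f : V → ENNReal := fun x => ENNReal.ofReal (Real.exp (-s * α x)) with hf
  set F : Bool × Bool × List V → ENNReal := fun p =>
    ENNReal.ofReal (Real.exp s) * (p.2.2.map f).prod with hF
  have hle : ∀ g : Gom η, ENNReal.ofReal (Real.exp (-s * KO η α g)) ≤ F (Φ g) := by
    intro g
    simp only [hF, hΦ, hf]
    rw [G_prod, ← ENNReal.ofReal_mul (Real.exp_pos _).le, ← Real.exp_add]
    apply ENNReal.ofReal_le_ofReal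
    apply Real.exp_le_exp.2
    have h1 := (hv g).2.2.1
    have h2 := hwK g
    have h3 : s * Kwo α (U (v g)) ≤ s * (KO η α g + 1) :=
      mul_le_mul_of_nonneg_left (by linarith) hs.le
    linarith
  have h3 : ZO η α s ≤ ∑' p, F p := by
    unfold ZO
    exact (ENNReal.tsum_le_tsum hle).trans (ENNReal.tsum_comp_le_tsum_of_injective hinj _)
  refine lt_of_le_of_lt h3 ?_
  have hsum : ∑' v : List V, (v.map f).prod < ⊤ := by
    rw [G_words, ENNReal.tsum_geometric, ENNReal.inv_lt_top, tsub_pos_iff_lt]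
    simp only [hf]
    rw [← ENNReal.ofReal_add (Real.exp_pos _).le (Real.exp_pos _).le,
      ← ENNReal.ofReal_add (by positivity) (Real.exp_pos _).le, ENNReal.ofReal_lt_one]
    exact h
  simp only [hF]
  rw [ENNReal.tsum_mul_left, ENNReal.tsum_prod']
  apply ENNReal.mul_lt_top ENNReal.ofReal_lt_top
  rw [tsum_fintype, Fintype.sum_bool]
  simp only
  have h4 : ∑' b : Bool × List V, ((b.2.map f).prod) < ⊤ := by
    rw [ENNReal.tsum_prod', tsum_fintype, Fintype.sum_bool]
    exact ENNReal.add_lt_top.2 ⟨hsum, hsum⟩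
  exact ENNReal.add_lt_top.2 ⟨h4, h4⟩

theorem G_inv (k : ℕ) : al om k .b = 1 ∧
    (Even k → al om k .d ≤ al om k .c ∧ al om k .c ≤ al om k .d + 1 / 2) ∧
    (¬ Even k → al om k .c ≤ al om k .d ∧ al om k .d ≤ al om k .c + 1 / 2) ∧
    2 + (k : ℝ) / 2 ≤ al om k .c + al om k .d := by
  induction k with
  | zero =>
    rw [al_zero, al_zero, al_zero]
    refine ⟨rfl, fun _ => by norm_num, fun h => absurd Even.zero h, by norm_num⟩
  | succ k ih =>
    obtain ⟨hb, he, ho, hs⟩ := ih
    rw [al_succ]
    by_cases hk : Even k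
    · have hom : om k = 0 := if_pos hk
      have hkil : kil (om k) = V.d := by rw [hom]; rfl
      have eb : stp (kil (om k)) (al om k) .b = al om k .b := by
        unfold stp; rw [hkil, if_neg (by decide)]
      have ec : stp (kil (om k)) (al om k) .c = al om k .c := by
        unfold stp; rw [hkil, if_neg (by decide)]
      have ed : stp (kil (om k)) (al om k) .d = (al om k .b + al om k .c + al om k .d) / 2 := by
        unfold stp; rw [hkil, if_pos rfl]
      rw [eb, ec, ed, hb]
      obtain ⟨h1, h2⟩ := he hk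
      refine ⟨rfl, fun h => absurd hk (Nat.even_add_one.1 h), fun _ => ⟨by linarith, by linarith⟩,
        ?_⟩
      push_cast
      linarith
    · have hom : om k = 1 := if_neg hk
      have hkil : kil (om k) = V.c := by rw [hom]; rfl
      have eb : stp (kil (om k)) (al om k) .b = al om k .b := by
        unfold stp; rw [hkil, if_neg (by decide)]
      have ed : stp (kil (om k)) (al om k) .d = al om k .d := by
        unfold stp; rw [hkil, if_neg (by decide)]
      have ec : stp (kil (om k)) (al om k) .c = (al om k .b + al om k .c + al om k .d) / 2 := by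
        unfold stp; rw [hkil, if_pos rfl]
      rw [eb, ec, ed, hb]
      obtain ⟨h1, h2⟩ := ho hk
      refine ⟨rfl, fun _ => ⟨by linarith, by linarith⟩,
        fun h => absurd (Nat.even_add_one.2 hk) h, ?_⟩
      push_cast
      linarith

theorem al_om (k : ℕ) : al om k .b = 1 ∧ 1 + ((k : ℝ) - 1) / 4 ≤ al om k .c ∧
    1 + ((k : ℝ) - 1) / 4 ≤ al om k .d := by
  obtain ⟨hb, he, ho, hs⟩ := G_inv k
  refine ⟨hb, ?_⟩
  by_cases hk : Even k
  · obtain ⟨h1, h2⟩ := he hk
    constructor <;> linarith
  · obtain ⟨h1, h2⟩ := ho hk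
    constructor <;> linarith

theorem G_down (s : ℝ) (hs : 0 ≤ s) (k : ℕ) (h : ZO (shi k om) (al om k) s < ⊤) (j : ℕ) :
    ∀ i, i + j = k → ZO (shi i om) (al om i) s < ⊤ := by
  induction j with
  | zero =>
    intro i hi
    obtain rfl : i = k := by omega
    exact h
  | succ j ih =>
    intro i hi
    have hih := ih (i + 1) (by omega)
    have ht := al_tri om i
    have hb := ht.pos .b
    have hc := ht.pos .c
    have hd := ht.pos .d
    have hM : ∀ x, al om i x ≤ al om i .b + al om i .c + al om i .d := by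
      intro x
      cases x <;> linarith
    have h1 := ZO_step (shi i om) (al om i) ht _ hM s hs
    have h2 : (shi i om) 0 = om i := by simp [shi]
    rw [h2, ← al_succ, sh_shi] at h1
    refine lt_of_le_of_lt h1 ?_
    exact ENNReal.mul_lt_top (ENNReal.mul_lt_top (by simp) ENNReal.ofReal_lt_top)
      (ENNReal.pow_lt_top hih)

theorem G_top (s : ℝ) (hs : 0 < s) : ZO om (al om 0) s < ⊤ := by
  have h1 : Real.exp (-s) < 1 := by
    rw [Real.exp_lt_one_iff]
    linarith
  set δ : ℝ := (1 - Real.exp (-s)) / 2 with hδ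
  have hδ0 : 0 < δ := by rw [hδ]; linarith
  obtain ⟨k, hk⟩ := exists_nat_gt ((-Real.log δ) / s * 4)
  have hk2 : -Real.log δ < s * (k / 4) := by
    have h2 : (-Real.log δ) / s * 4 * (s / 4) < k * (s / 4) :=
      mul_lt_mul_of_pos_right hk (by positivity)
    have h3 : (-Real.log δ) / s * 4 * (s / 4) = -Real.log δ := by
      field_simp
    rw [h3] at h2
    linarith
  obtain ⟨hb, hc, hd⟩ := al_om k
  have key : ∀ t : ℝ, 1 + ((k : ℝ) - 1) / 4 ≤ t → Real.exp (-s * t) < δ := by
    intro t ht
    have h4 : -s * t < Real.log δ := by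
      have h5 : s * (k / 4) ≤ s * t := mul_le_mul_of_nonneg_left (by linarith) hs.le
      linarith
    calc Real.exp (-s * t) < Real.exp (Real.log δ) := Real.exp_lt_exp.2 h4
      _ = δ := Real.exp_log hδ0
  have hfin : ZO (shi k om) (al om k) s < ⊤ := by
    apply ZO_fin (shi k om) (al om k) (al_tri om k) s hs
    rw [hb, mul_one]
    have h5 := key _ hc
    have h6 := key _ hd
    linarith
  have h7 := G_down s hs.le k hfin k 0 (by omega)
  rw [shi_zero] at h7
  exact h7

theorem om_subexp (ε : ℝ) (hε : 0 < ε) :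
    ∃ N : ℕ, ∀ n : ℕ, N ≤ n → (ballO om n : ℝ) ≤ Real.exp (ε * n) := by
  have hs : 0 < ε / 2 := half_pos hε
  have htop := G_top (ε / 2) hs
  set Z : ℝ := (ZO om (al om 0) (ε / 2)).toReal with hZ
  have hZ0 : 0 ≤ Z := ENNReal.toReal_nonneg
  obtain ⟨N, hN⟩ := exists_nat_gt (Z / (ε / 2))
  refine ⟨N, fun n hn => ?_⟩
  have h1 := F_ball om n (ε / 2) hs.le
  have h2 : ZO om (al om 0) (ε / 2) ≤ ENNReal.ofReal (Real.exp (ε / 2 * n)) := by
    rw [← ENNReal.ofReal_toReal htop.ne]
    apply ENNReal.ofReal_le_ofReal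
    have h3 : Z ≤ ε / 2 * n := by
      have h4 : Z / (ε / 2) ≤ n := hN.le.trans (by exact_mod_cast hn)
      rw [div_le_iff₀ hs] at h4
      linarith
    have h5 := Real.add_one_le_exp (ε / 2 * n)
    linarith
  have h3 : (ballO om n : ENNReal) ≤ ENNReal.ofReal (Real.exp (ε * n)) := by
    refine h1.trans ((mul_le_mul_right h2 _).trans (le_of_eq ?_))
    rw [← ENNReal.ofReal_mul (Real.exp_pos _).le, ← Real.exp_add]
    congr 2
    ring
  rw [← ENNReal.ofReal_natCast] at h3
  exact (ENNReal.ofReal_le_ofReal_iff (Real.exp_pos _).le).1 h3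

end Pool.Agent.H776R2.Mor
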