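import Mathlib
import Pool.Agent.H776R2.Mor.Defs
import Pool.Agent.H776R2.Om.Jsub
import Pool.Agent.H776R2.Mor.Jch

set_option autoImplicit false

/-! Task P: superpolynomial growth. -/

namespace Pool.Agent.H776R2.Mor

open Pool.Agent.Results.MP_03d093_al.SphereBall Pool.Agent.H776R2.Grig Pool.Agent.H776R2.Om

namespace Super

theorem P_evo_rep (η : Om) (w : List Lt) (n : ℕ) :
    evo η (List.replicate n w).flatten = evo η w ^ n := by
  induction n with
  | zero => simp [evo_nil]
  | succ n ih =>
    rw [List.replicate_succ, List.flatten_cons, evo_append, ih, pow_succ']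

theorem P_pow_append (f g : P) (v : List Bool) (h : ∀ u, f (v ++ u) = v ++ g u) (n : ℕ) :
    ∀ u, (f ^ n) (v ++ u) = v ++ (g ^ n) u := by
  induction n with
  | zero => intro u; simp
  | succ n ih =>
    intro u
    rw [pow_succ', pow_succ', Equiv.Perm.mul_apply, Equiv.Perm.mul_apply, ih, h]

theorem P_pow_fix (f : P) (x : List Bool) (h : f x = x) (n : ℕ) : (f ^ n) x = x := by
  induction n with
  | zero => simp
  | succ n ih => rw [pow_succ', Equiv.Perm.mul_apply, ih, h]

theorem P_pow_inj (g : P) (hg : ∀ n : ℕ, g ^ n = 1 → n = 0) (m n : ℕ) (h : g ^ m = g ^ n) :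
    m = n := by
  wlog hmn : m ≤ n generalizing m n
  · exact (this n m h.symm (by omega)).symm
  · have h1 : g ^ (n - m) = 1 := by
      have h2 : g ^ n = g ^ m * g ^ (n - m) := by
        rw [← pow_add]
        congr 1
        omega
      rw [h2] at h
      exact mul_left_cancel (h.symm.trans (mul_one _).symm)
    have := hg _ h1
    omega

/-- the combined element -/
theorem P_build (k : ℕ) (g : P) (w : List.Vector Bool k → List Lt)
    (h1 : ∀ v : List.Vector Bool k, ∀ u, evo om (w v) (v.1 ++ u) = v.1 ++ g u)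
    (h2 : ∀ v : List.Vector Bool k, ∀ u : List Bool, k ≤ u.length → u.take k ≠ v.1 →
      evo om (w v) u = u) (m : ℕ) (j : List.Vector Bool k → ℕ) (hj : ∀ v, j v ≤ m)
    (S : Finset (List.Vector Bool k)) :
    ∃ W : List Lt, W.length ≤ m * ∑ v ∈ S, (w v).length ∧
      (∀ v ∈ S, ∀ u, evo om W (v.1 ++ u) = v.1 ++ (g ^ j v) u) ∧
      (∀ v, v ∉ S → ∀ u, evo om W (v.1 ++ u) = v.1 ++ u) := by
  classical
  induction S using Finset.induction_on with
  | empty =>
    refine ⟨[], by simp, by simp, fun v _ u => rfl⟩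
  | insert x S hx ih =>
    obtain ⟨W, hW1, hW2, hW3⟩ := ih
    refine ⟨(List.replicate (j x) (w x)).flatten ++ W, ?_, ?_, ?_⟩
    · rw [Finset.sum_insert hx, List.length_append, List.length_flatten, List.map_replicate,
        List.sum_replicate, smul_eq_mul, mul_add]
      exact Nat.add_le_add (Nat.mul_le_mul_right _ (hj x)) hW1
    · intro v hv u
      rw [evo_append, Equiv.Perm.mul_apply, P_evo_rep]
      rcases Finset.mem_insert.1 hv with rfl | hvS
      · rw [hW3 v hx u]
        exact P_pow_append _ g v.1 (h1 v) (j v) u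
      · rw [hW2 v hvS u]
        apply P_pow_fix
        apply h2
        · rw [List.length_append, v.2]
          omega
        · rw [List.take_append_of_le_length (by rw [v.2]), List.take_of_length_le (by rw [v.2])]
          intro h
          exact hx ((Subtype.ext h : v = x) ▸ hvS)
    · intro v hv u
      rw [Finset.mem_insert, not_or] at hv
      rw [evo_append, Equiv.Perm.mul_apply, P_evo_rep, hW3 v hv.2 u]
      apply P_pow_fix
      apply h2
      · rw [List.length_append, v.2]
        omega
      · rw [List.take_append_of_le_length (by rw [v.2]), List.take_of_length_le (by rw [v.2])]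
        intro h
        exact hv.1 (Subtype.ext h)

end Super

open Super

theorem om_pow (k : ℕ) : ∃ C : ℕ, 1 ≤ C ∧ ∀ m : ℕ, (m + 1) ^ 2 ^ k ≤ ballO om (C * m) := by
  classical
  set θ : Om := fun n => if Even n then 1 else 0 with hθ
  have hsh : sh θ = om := by
    funext n
    simp only [sh, hθ, om, Nat.even_add_one]
    by_cases h : Even n <;> simp [h]
  have hkb : ∀ n, kil (θ n) ≠ V.b := by
    intro n
    simp only [hθ]
    split_ifs <;> decide
  have halt : ∀ n, kil (θ n) ≠ kil (θ (n + 1)) := by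
    intro n
    simp only [hθ, Nat.even_add_one]
    by_cases h : Even n <;> simp [h, kil]
  set η : Om := shi (k + 1) θ with hη
  have hη0 : η 0 = θ (k + 1) := by simp [hη, shi]
  set g : P := (a * xx η V.b) ^ 4 with hg
  have hgJ : g ∈ Jset (kil (θ k)) η := by
    refine ab_J η (kil (θ k)) (hkb k) ?_ ?_
    · rw [hη0]; exact hkb _
    · rw [hη0]; exact halt k
  have hginf : ∀ n : ℕ, g ^ n = 1 → n = 0 := by
    intro n hn
    rw [hg, ← pow_mul] at hn
    have := ab_inf (4 * n) η (fun i => hkb _) hn
    omega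
  have hch : ∀ v : List.Vector Bool k, ∃ w : List Lt, (∀ u, evo om w (v.1 ++ u) = v.1 ++ g u) ∧
      (∀ u : List Bool, k ≤ u.length → u.take k ≠ v.1 → evo om w u = u) := by
    intro v
    obtain ⟨f, hf, hf1, hf2⟩ := J_chain k θ g hgJ v.1 v.2
    obtain ⟨w, hw, -⟩ := J_word hf
    rw [hsh] at hw
    refine ⟨w, ?_, ?_⟩
    · rw [hw]; exact hf1
    · rw [hw]; exact hf2
  choose w hw1 hw2 using hch
  refine ⟨∑ v : List.Vector Bool k, (w v).length + 1, by omega, ?_⟩
  intro m
  choose W hW1 hW2 _ using fun j : List.Vector Bool k → Fin (m + 1) =>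
    P_build k g w hw1 hw2 m (fun v => (j v : ℕ)) (fun v => by have := (j v).2; omega) Finset.univ
  have hlen : ∀ j, lenO om (evG om (W j)) ≤ (∑ v : List.Vector Bool k, (w v).length + 1) * m := by
    intro j
    refine (lenO_le om (W j)).trans ((hW1 j).trans ?_)
    rw [mul_comm]
    exact Nat.mul_le_mul_right _ (Nat.le_succ _)
  let Φ : (List.Vector Bool k → Fin (m + 1)) →
      {g : Gom om // lenO om g ≤ (∑ v : List.Vector Bool k, (w v).length + 1) * m} :=
    fun j => ⟨evG om (W j), hlen j⟩
  have hinj : Function.Injective Φ := by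
    intro j j' hjj
    have h1 : evo om (W j) = evo om (W j') := by
      have h2 : evG om (W j) = evG om (W j') := congrArg Subtype.val hjj
      exact congrArg Subtype.val h2
    funext v
    have h3 : g ^ (j v : ℕ) = g ^ (j' v : ℕ) := by
      ext1 u
      have h4 := hW2 j v (Finset.mem_univ v) u
      rw [h1, hW2 j' v (Finset.mem_univ v) u] at h4
      exact (List.append_cancel_left h4).symm
    exact Fin.ext (P_pow_inj g hginf _ _ h3)
  have h5 := Nat.card_le_card_of_injective Φ hinj
  have h6 : Nat.card (List.Vector Bool k → Fin (m + 1)) = (m + 1) ^ 2 ^ k := by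
    rw [Nat.card_eq_fintype_card, Fintype.card_fun, card_vector, Fintype.card_bool, Fintype.card_fin]
  rw [h6] at h5
  exact h5

theorem om_superpoly (d : ℕ) : ∃ N : ℕ, ∀ n : ℕ, N ≤ n → n ^ d ≤ ballO om n := by
  obtain ⟨C, hC, h⟩ := om_pow (d + 1)
  refine ⟨C ^ (d + 1), fun n hn => ?_⟩
  set m := n / C with hm
  have h1 : C * m ≤ n := Nat.mul_div_le n C
  have h2 : n ≤ C * (m + 1) := by
    have := Nat.lt_mul_div_succ n (show 0 < C by omega)
    exact this.le
  have h3 : C ^ d ≤ m := by
    rw [hm, Nat.le_div_iff_mul_le (by omega), ← pow_succ]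
    exact hn
  calc n ^ d ≤ (C * (m + 1)) ^ d := Nat.pow_le_pow_left h2 d
    _ = C ^ d * (m + 1) ^ d := mul_pow _ _ _
    _ ≤ (m + 1) * (m + 1) ^ d := Nat.mul_le_mul_right _ (by omega)
    _ = (m + 1) ^ (d + 1) := by rw [pow_succ']
    _ ≤ (m + 1) ^ 2 ^ (d + 1) := Nat.pow_le_pow_right (by omega) (Nat.lt_two_pow_self).le
    _ ≤ ballO om (C * m) := h m
    _ ≤ ballO om n := ballO_mono om h1

end Pool.Agent.H776R2.Mor
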